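import Pool.Agent.U234.LD.Padic

/-! Linear transformations. -/

set_option autoImplicit false

open Finset Real Polynomial
open scoped Pointwise

namespace Pool.Agent.U234.LD

/-- small sums for an endomorphism without killed elements -/
theorem endo_small {Γ : Type*} [AddCommGroup Γ] [DecidableEq Γ] (φ : Module.End ℤ Γ)
    (hφ : ∀ x ∈ Ker φ, x = 0)
    (A : Finset Γ) (hA : A.Nonempty) (K : ℝ) (hK : 1 ≤ K)
    (δ : ℝ) (hδ : 0 < δ) (hδ1 : δ ≤ 1) (S : Finset ℕ) (hS : CS δ * (1 + log K) ≤ S.card)
    (hsum : ∀ s ∈ S, ∃ Q : ℤ[X], Q.coeff 0 = 1 ∧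
      ((A + A.image fun x => (aeval φ (X ^ s * Q)) x).card : ℝ) ≤ K * A.card) :
    (A.card : ℝ) ≤ K ^ (1 + δ) := by
  let _ : Module ℤ[X] Γ := Module.compHom Γ ((aeval φ).toRingHom : ℤ[X] →+* Module.End ℤ Γ)
  obtain ⟨A', _, h2, h3⟩ := small_mod (R := ℤ[X]) (M := Γ) X A hA K hK δ hδ hδ1 S hS
    (by
      intro r hr
      obtain ⟨Q, hQ, hle⟩ := hsum r hr
      refine ⟨Q, coprime_X hQ, ?_⟩
      have e := ncard_image A A (fun x => (aeval φ (X ^ r * Q)) x)
      rw [← e] at hle
      exact hle)
  refine card_le_of_diff A A' K hK δ h2 fun x hx y hy => hφ _ ?_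
  obtain ⟨i, c, hic⟩ := h3 x hx y hy
  exact ⟨i, 1 - X * c, by simp, hic⟩

/-- linear transformations without eigenvalues which are zero or the inverse of an algebraic integer -/
theorem lin_killed {F : Type*} [Field F] [IsAlgClosed F] {V : Type*} [AddCommGroup V] [Module F V]
    [FiniteDimensional F V] (L : Module.End F V)
    (hL : ∀ l : F, L.HasEigenvalue l → l ≠ 0 ∧ ¬ IsIntegral ℤ l⁻¹) (x : V)
    (hx : x ∈ Ker (L.restrictScalars ℤ)) : x = 0 := by
  by_contra hne
  obtain ⟨i, P, hP, h⟩ := hx
  set P' : F[X] := (X ^ i * P).map (algebraMap ℤ F) with hP'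
  have haev : ∀ (Q : ℤ[X]) (y : V), (aeval (L.restrictScalars ℤ) Q) y =
      (aeval L (Q.map (algebraMap ℤ F))) y := by
    intro Q y
    induction Q using Polynomial.induction_on' generalizing y with
    | add p q hp hq =>
      rw [map_add, LinearMap.add_apply, hp, hq, Polynomial.map_add, map_add, LinearMap.add_apply]
    | monomial n a =>
      have hpow : ∀ (n : ℕ) (y : V), ((L.restrictScalars ℤ : Module.End ℤ V) ^ n) y = (L ^ n) y := by
        intro n
        induction n with
        | zero => intro y; simp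
        | succ n ih =>
          intro y
          rw [pow_succ, pow_succ, Module.End.mul_apply, Module.End.mul_apply, ih]
          rfl
      rw [Polynomial.map_monomial, aeval_monomial, aeval_monomial, Module.End.mul_apply,
        Module.End.mul_apply, hpow]
      simp
  rw [haev] at h
  set N := LinearMap.ker (aeval L P') with hN
  have hxN : x ∈ N := h
  have hinv : ∀ y ∈ N, L y ∈ N := by
    intro y hy
    rw [hN, LinearMap.mem_ker] at hy ⊢
    have e : (aeval L P') (L y) = L ((aeval L P') y) := by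
      have e1 : (aeval L P') * L = L * (aeval L P') := by
        have : (aeval L P') * (aeval L (X : F[X])) = (aeval L (X : F[X])) * (aeval L P') := by
          rw [← map_mul, ← map_mul, mul_comm]
        rwa [aeval_X] at this
      exact congrArg (fun T : Module.End F V => T y) e1
    rw [e, hy, map_zero]
  have hnt : Nontrivial N := ⟨⟨⟨x, hxN⟩, 0, fun h => hne (congrArg Subtype.val h)⟩⟩
  obtain ⟨l, hl⟩ := Module.End.exists_eigenvalue (L.restrict hinv)
  obtain ⟨y, hy⟩ := hl.exists_hasEigenvector
  have hy1 : L (y : V) = l • (y : V) := by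
    have := congrArg Subtype.val hy.apply_eq_smul
    simpa using this
  have hy0 : (y : V) ≠ 0 := fun h => hy.2 (Subtype.ext h)
  have hyv : L.HasEigenvector l (y : V) := ⟨Module.End.mem_eigenspace_iff.2 hy1, hy0⟩
  have hev := hL l (Module.End.hasEigenvalue_of_hasEigenvector hyv)
  have h1 : (aeval L P') (y : V) = 0 := y.2
  rw [Module.End.aeval_apply_of_hasEigenvector hyv] at h1
  have h2 : P'.eval l = 0 := (smul_eq_zero.1 h1).resolve_right hy0
  rw [hP', eval_map_algebraMap, map_mul, map_pow, aeval_X] at h2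
  rcases mul_eq_zero.1 h2 with h3 | h3
  · exact hev.1 (eq_zero_of_pow_eq_zero h3)
  · exact not_zero_of_not_integral l hev.1 hev.2 P hP h3

end Pool.Agent.U234.LD
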