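import Pool.Agent.U234.LD.Rng
import Pool.Agent.TH404.Tor.Final

/-! Applications: endomorphisms, integers, groups with bounded torsion. -/

set_option autoImplicit false

open Finset Real Polynomial
open scoped Pointwise

namespace Pool.Agent.U234.LD

theorem ncard_image {Γ : Type*} [AddCommGroup Γ] [DecidableEq Γ] (A B : Finset Γ) (f : Γ → Γ) :
    Set.ncard {x : Γ | ∃ a ∈ A, ∃ b ∈ B, x = a + f b} = (A + B.image f).card := by
  rw [← Set.ncard_coe_finset]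
  congr 1
  ext x
  simp only [Set.mem_ofPred_eq, mem_coe, Finset.mem_add, mem_image]
  constructor
  · rintro ⟨a, ha, b, hb, rfl⟩
    exact ⟨a, ha, f b, ⟨b, hb, rfl⟩, rfl⟩
  · rintro ⟨a, ha, _, ⟨b, hb, rfl⟩, rfl⟩
    exact ⟨a, ha, b, hb, rfl⟩

theorem ncard_self {Γ : Type*} [AddCommGroup Γ] [DecidableEq Γ] (A : Finset Γ) :
    Set.ncard {x : Γ | ∃ a ∈ A, ∃ b ∈ A, x = a + b} = (A + A).card := by
  have := ncard_image A A id
  simpa using this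

theorem one_le_K {Γ : Type*} [AddCommGroup Γ] [DecidableEq Γ] {A : Finset Γ} {K : ℝ}
    (hA : A.Nonempty) (hK : ((A + A).card : ℝ) ≤ K * (A.card : ℝ)) : 1 ≤ K := by
  have hpos : (0 : ℝ) < A.card := by exact_mod_cast hA.card_pos
  have h1 : (A.card : ℝ) ≤ (A + A).card := by
    exact_mod_cast Finset.card_le_card_add_right hA
  nlinarith

theorem coprime_X {Q : ℤ[X]} (hQ : Q.coeff 0 = 1) : IsCoprime Q X := by
  refine ⟨1, -Q.divX, ?_⟩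
  have h := Polynomial.divX_mul_X_add Q
  rw [hQ, map_one] at h
  linear_combination -h

/-- **Endomorphisms.** -/
theorem endo {Γ : Type*} [AddCommGroup Γ] [DecidableEq Γ] (φ : Module.End ℤ Γ)
    (A : Finset Γ) (hA : A.Nonempty) (K : ℝ) (hK : ((A + A).card : ℝ) ≤ K * A.card)
    (δ : ℝ) (hδ : 0 < δ) (hδ1 : δ ≤ 1) (S : Finset ℕ) (hS : CS δ * (1 + log K) ≤ S.card)
    (hsum : ∀ s ∈ S, ∃ Q : ℤ[X], Q.coeff 0 = 1 ∧
      ((A + A.image fun x => (aeval φ (X ^ s * Q)) x).card : ℝ) ≤ K * A.card) :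
    ∃ A' ⊆ A, (A.card : ℝ) ≤ K ^ (1 + δ) * A'.card ∧
      ∀ x ∈ A', ∀ y ∈ A', ∃ (i : ℕ) (P : ℤ[X]), P.coeff 0 = 1 ∧
        (aeval φ (X ^ i * P)) (x - y) = 0 := by
  let _ : Module ℤ[X] Γ := Module.compHom Γ ((aeval φ).toRingHom : ℤ[X] →+* Module.End ℤ Γ)
  obtain ⟨A', h1, h2, h3⟩ := small_mod (R := ℤ[X]) (M := Γ) X A hA K (one_le_K hA hK) δ hδ hδ1 S hS
    (by
      intro r hr
      obtain ⟨Q, hQ, hle⟩ := hsum r hr
      refine ⟨Q, coprime_X hQ, ?_⟩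
      have e := ncard_image A A (fun x => (aeval φ (X ^ r * Q)) x)
      rw [← e] at hle
      exact hle)
  refine ⟨A', h1, h2, fun x hx y hy => ?_⟩
  obtain ⟨i, c, hic⟩ := h3 x hx y hy
  exact ⟨i, 1 - X * c, by simp, hic⟩

/-- the subgroup killed by the polynomials `X ^ i P`, `P (0) = 1` -/
def Ker {Γ : Type*} [AddCommGroup Γ] (φ : Module.End ℤ Γ) : AddSubgroup Γ where
  carrier := {x | ∃ (i : ℕ) (P : ℤ[X]), P.coeff 0 = 1 ∧ (aeval φ (X ^ i * P)) x = 0}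
  zero_mem' := ⟨0, 1, by simp, by simp⟩
  add_mem' := by
    rintro x y ⟨i, P, hP, hx⟩ ⟨j, Q, hQ, hy⟩
    refine ⟨i + j, P * Q, by rw [Polynomial.mul_coeff_zero, hP, hQ, one_mul], ?_⟩
    have e1 : (X ^ (i + j) * (P * Q) : ℤ[X]) = (X ^ j * Q) * (X ^ i * P) := by ring
    have e2 : (X ^ (i + j) * (P * Q) : ℤ[X]) = (X ^ i * P) * (X ^ j * Q) := by ring
    rw [map_add]
    conv_lhs =>
      congr
      · rw [e1, map_mul, Module.End.mul_apply, hx, map_zero]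
      · rw [e2, map_mul, Module.End.mul_apply, hy, map_zero]
    rw [add_zero]
  neg_mem' := by
    rintro x ⟨i, P, hP, hx⟩
    exact ⟨i, P, hP, by rw [map_neg, hx, neg_zero]⟩

theorem mem_Ker {Γ : Type*} [AddCommGroup Γ] (φ : Module.End ℤ Γ) (x : Γ) : x ∈ Ker φ ↔
    ∃ (i : ℕ) (P : ℤ[X]), P.coeff 0 = 1 ∧ (aeval φ (X ^ i * P)) x = 0 := Iff.rfl

theorem endo_cov {Γ : Type*} [AddCommGroup Γ] [DecidableEq Γ] (φ : Module.End ℤ Γ)
    (A : Finset Γ) (hA : A.Nonempty) (K : ℝ) (hK : ((A + A).card : ℝ) ≤ K * A.card)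
    (δ : ℝ) (hδ : 0 < δ) (hδ1 : δ ≤ 1) (S : Finset ℕ) (hS : CS δ * (1 + log K) ≤ S.card)
    (hsum : ∀ s ∈ S, ∃ Q : ℤ[X], Q.coeff 0 = 1 ∧
      ((A + A.image fun x => (aeval φ (X ^ s * Q)) x).card : ℝ) ≤ K * A.card) :
    ∃ T ⊆ A, (T.card : ℝ) ≤ K ^ (2 + δ) ∧ ∀ a ∈ A, ∃ t ∈ T, a - t ∈ Ker φ := by
  obtain ⟨A', h1, h2, h3⟩ := endo φ A hA K hK δ hδ hδ1 S hS hsum
  have hK1 := one_le_K hA hK
  obtain ⟨T, hTA, hT, hcov⟩ := covering A A' hA h1 K (K ^ (1 + δ)) hK1 (by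
    rw [ncard_self]; exact hK) h2 (Ker φ : Set Γ) h3
  refine ⟨T, hTA, ?_, hcov⟩
  have : K ^ (2 + δ) = K * K ^ (1 + δ) := by
    rw [show (2 : ℝ) + δ = 1 + (1 + δ) by ring, rpow_add (by linarith), rpow_one]
  rw [this]
  exact hT

/-- the integers -/
theorem int_small {Γ : Type*} [AddCommGroup Γ] [DecidableEq Γ] (q : ℕ) (hq : 2 ≤ q)
    (A : Finset Γ) (hA : A.Nonempty) (K : ℝ) (hK1 : 1 ≤ K)
    (δ : ℝ) (hδ : 0 < δ) (hδ1 : δ ≤ 1) (S : Finset ℕ) (hS : CS δ * (1 + log K) ≤ S.card)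
    (hsum : ∀ s ∈ S, ∃ u : ℤ, IsCoprime u (q : ℤ) ∧
      ((A + A.image fun x => ((q : ℤ) ^ s * u) • x).card : ℝ) ≤ K * A.card) :
    ∃ A' ⊆ A, (A.card : ℝ) ≤ K ^ (1 + δ) * A'.card ∧
      ∀ x ∈ A', ∀ y ∈ A', ∃ n : ℤ, n ≠ 0 ∧ n • (x - y) = 0 := by
  obtain ⟨A', h1, h2, h3⟩ := small_mod (R := ℤ) (M := Γ) (q : ℤ) A hA K hK1 δ hδ hδ1
    S hS (by
      intro r hr
      obtain ⟨u, hu, hle⟩ := hsum r hr
      refine ⟨u, hu, ?_⟩
      have e := ncard_image A A (fun x => ((q : ℤ) ^ r * u) • x)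
      rw [← e] at hle
      exact hle)
  refine ⟨A', h1, h2, fun x hx y hy => ?_⟩
  obtain ⟨i, c, hic⟩ := h3 x hx y hy
  refine ⟨(q : ℤ) ^ i * (1 - q * c), mul_ne_zero (pow_ne_zero _ (by positivity)) ?_, hic⟩
  intro h
  have h4 : IsUnit (q : ℤ) := IsUnit.of_mul_eq_one c (by linarith)
  rw [Int.isUnit_iff] at h4
  omega

theorem finite_of_torsion {Γ : Type*} [AddCommGroup Γ] (A' : Finset Γ)
    (h : ∀ x ∈ A', ∀ y ∈ A', ∃ n : ℤ, n ≠ 0 ∧ n • (x - y) = 0) :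
    ∃ U : AddSubgroup Γ, Finite U ∧ (∀ x ∈ U, ∃ n : ℤ, n ≠ 0 ∧ n • x = 0) ∧
      ∀ x ∈ A', ∀ y ∈ A', x - y ∈ U := by
  classical
  have key : ∀ x ∈ Submodule.span ℤ ((A' - A' : Finset Γ) : Set Γ), ∃ n : ℤ, n ≠ 0 ∧ n • x = 0 := by
    intro x hx
    induction hx using Submodule.span_induction with
    | mem x hx =>
      rw [mem_coe, Finset.mem_sub] at hx
      obtain ⟨a, ha, b, hb, rfl⟩ := hx
      exact h a ha b hb
    | zero => exact ⟨1, one_ne_zero, smul_zero _⟩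
    | add x y _ _ hx hy =>
      obtain ⟨n, hn, hx⟩ := hx
      obtain ⟨m, hm, hy⟩ := hy
      refine ⟨n * m, mul_ne_zero hn hm, ?_⟩
      rw [smul_add, mul_comm n m, mul_smul, hx, smul_zero, zero_add, mul_comm, mul_smul, hy,
        smul_zero]
    | smul c x _ hx =>
      obtain ⟨n, hn, hx⟩ := hx
      exact ⟨n, hn, by rw [smul_comm, hx, smul_zero]⟩
  set N := Submodule.span ℤ ((A' - A' : Finset Γ) : Set Γ) with hN
  have hfg : Module.Finite ℤ N := Module.Finite.span_finset ℤ (A' - A')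
  have hfin : Finite N := by
    refine Module.finite_of_fg_torsion N ?_
    intro x
    obtain ⟨n, hn, hx⟩ := key x.1 x.2
    refine ⟨⟨n, mem_nonZeroDivisors_of_ne_zero hn⟩, ?_⟩
    exact Subtype.ext hx
  refine ⟨N.toAddSubgroup, hfin, key, fun x hx y hy => Submodule.subset_span ?_⟩
  rw [mem_coe]
  exact Finset.sub_mem_sub hx hy

theorem int_cov {Γ : Type*} [AddCommGroup Γ] [DecidableEq Γ] (q : ℕ) (hq : 2 ≤ q)
    (A : Finset Γ) (hA : A.Nonempty) (K : ℝ) (hK : ((A + A).card : ℝ) ≤ K * A.card)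
    (δ : ℝ) (hδ : 0 < δ) (hδ1 : δ ≤ 1) (S : Finset ℕ) (hS : CS δ * (1 + log K) ≤ S.card)
    (hsum : ∀ s ∈ S, ∃ u : ℤ, IsCoprime u (q : ℤ) ∧
      ((A + A.image fun x => ((q : ℤ) ^ s * u) • x).card : ℝ) ≤ K * A.card) :
    ∃ (U : AddSubgroup Γ) (T : Finset Γ), Finite U ∧ (∀ x ∈ U, ∃ n : ℤ, n ≠ 0 ∧ n • x = 0) ∧
      T ⊆ A ∧ (T.card : ℝ) ≤ K ^ (2 + δ) ∧
      ∀ a ∈ A, ∃ t ∈ T, a - t ∈ U := by
  have hK1 := one_le_K hA hK
  obtain ⟨A', h1, h2, h3⟩ := int_small q hq A hA K hK1 δ hδ hδ1 S hS hsum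
  obtain ⟨U, hU, htor, hdiff⟩ := finite_of_torsion A' h3
  obtain ⟨T, hTA, hT, hcov⟩ := covering A A' hA h1 K (K ^ (1 + δ)) hK1 (by
    rw [ncard_self]; exact hK) h2 (U : Set Γ) hdiff
  refine ⟨U, T, hU, htor, hTA, ?_, hcov⟩
  have : K ^ (2 + δ) = K * K ^ (1 + δ) := by
    rw [show (2 : ℝ) + δ = 1 + (1 + δ) by ring, rpow_add (by linarith), rpow_one]
  rw [this]
  exact hT

end Pool.Agent.U234.LD
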