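import Pool.Agent.U234.LD.LemE

/-! The main inequality: sums with many maps which shift a filtration. -/

set_option autoImplicit false

open Finset Real

namespace Pool.Agent.U234.LD

variable {Γ : Type*} [AddCommGroup Γ]

/-- the quotient group -/
def Q (F : AddSubgroup Γ) : Type _ := Γ ⧸ F

instance (F : AddSubgroup Γ) : AddCommGroup (Q F) := inferInstanceAs (AddCommGroup (Γ ⧸ F))

noncomputable instance (F : AddSubgroup Γ) : DecidableEq (Q F) := Classical.decEq _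

/-- reduction modulo `F` -/
def pi (F : AddSubgroup Γ) (x : Γ) : Q F := (x : Γ ⧸ F)

theorem pi_eq {F : AddSubgroup Γ} {x y : Γ} : pi F x = pi F y ↔ x - y ∈ F := by
  have h : ((x : Γ ⧸ F) = (y : Γ ⧸ F)) ↔ x - y ∈ F := by
    rw [eq_comm, QuotientAddGroup.eq, neg_add_eq_sub]
  exact h

theorem pi_add {F : AddSubgroup Γ} (x y : Γ) : pi F (x + y) = pi F x + pi F y := rfl

/-- the elements of `A` in a class -/
noncomputable def fib (F : AddSubgroup Γ) (A : Finset Γ) (c : Q F) : Finset Γ :=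
  A.filter fun x => pi F x = c

/-- the classes of the elements of `A` -/
noncomputable def cls (F : AddSubgroup Γ) (A : Finset Γ) : Finset (Q F) := A.image (pi F)

theorem mem_fib {F : AddSubgroup Γ} {A : Finset Γ} {c : Q F} {x : Γ} :
    x ∈ fib F A c ↔ x ∈ A ∧ pi F x = c := mem_filter

theorem mem_cls {F : AddSubgroup Γ} {A : Finset Γ} {c : Q F} :
    c ∈ cls F A ↔ ∃ x ∈ A, pi F x = c := mem_image

/-- the class of the second coordinate -/
def pj (F : AddSubgroup Γ) (ψ : Γ →+ Γ) (y : Γ) : Q F := pi F (ψ y)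

/-- the class of the sum -/
def ps (F : AddSubgroup Γ) (ψ : Γ →+ Γ) (z : Γ × Γ) : Q F := pi F z.1 + pj F ψ z.2

theorem ps_eq (F : AddSubgroup Γ) (ψ : Γ →+ Γ) (z : Γ × Γ) : ps F ψ z = pi F (z.1 + ψ z.2) := rfl

section

variable (F : ℕ → AddSubgroup Γ) (ψ : Γ →+ Γ) (r : ℕ)

theorem K_shift (hψ : ∀ s z, ψ z ∈ F s ↔ z ∈ F (s - r)) (B : Finset Γ) (s : ℕ) :
    K B (pj (F s) ψ) = K B (pi (F (s - r))) := by
  refine K_congr fun x _ y _ => ?_
  unfold pj
  rw [pi_eq, pi_eq, ← map_sub, hψ]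

theorem blockG {G : Type*} [AddCommGroup G] (hψ : ∀ s z, ψ z ∈ F s ↔ z ∈ F (s - r))
    (A B : Finset Γ) (t : ℕ) (U V : Γ → G)
    (href : ∀ x ∈ A ×ˢ B, ∀ y ∈ A ×ˢ B, U y.1 + V y.2 = U x.1 + V x.2 →
      ps (F t) ψ y = ps (F t) ψ x) :
    K (A ×ˢ B) (ps (F t) ψ) +
      ∑ c ∈ cls (F t) A, ∑ c' ∈ cls (F (t - r)) B,
        K (fib (F t) A c ×ˢ fib (F (t - r)) B c') (fun z => U z.1 + V z.2) ≤
      K (A ×ˢ B) (fun z => U z.1 + V z.2) := by
  have h1 := K_cond (A ×ˢ B) (fun z : Γ × Γ => U z.1 + V z.2)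
    (fun z => (pi (F t) z.1, pi (F (t - r)) z.2)) (ps (F t) ψ) href (by
      intro x _ y _ h
      obtain ⟨h1, h2⟩ := Prod.ext_iff.1 h
      dsimp only at h1 h2
      unfold ps
      rw [h1]
      congr 1
      unfold pj
      rw [pi_eq] at h2 ⊢
      rw [← map_sub, hψ]
      exact h2)
  have h2 : (A ×ˢ B).image (fun z : Γ × Γ => (pi (F t) z.1, pi (F (t - r)) z.2)) =
      cls (F t) A ×ˢ cls (F (t - r)) B := by
    ext w
    simp only [mem_image, mem_product, Prod.exists, mem_cls]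
    constructor
    · rintro ⟨x, y, ⟨hx, hy⟩, rfl⟩
      exact ⟨⟨x, hx, rfl⟩, y, hy, rfl⟩
    · rintro ⟨⟨x, hx, e1⟩, y, hy, e2⟩
      exact ⟨x, y, ⟨hx, hy⟩, Prod.ext e1 e2⟩
  have h3 : ∀ w : Q (F t) × Q (F (t - r)),
      (A ×ˢ B).filter (fun z : Γ × Γ => (pi (F t) z.1, pi (F (t - r)) z.2) = w) =
      fib (F t) A w.1 ×ˢ fib (F (t - r)) B w.2 := by
    intro w
    ext z
    simp only [mem_filter, mem_product, Prod.ext_iff, mem_fib]
    tauto
  have h4 : ∑ b ∈ (A ×ˢ B).image (fun z : Γ × Γ => (pi (F t) z.1, pi (F (t - r)) z.2)),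
      K ((A ×ˢ B).filter (fun z : Γ × Γ => (pi (F t) z.1, pi (F (t - r)) z.2) = b))
        (fun z : Γ × Γ => U z.1 + V z.2) =
      ∑ c ∈ cls (F t) A, ∑ c' ∈ cls (F (t - r)) B,
        K (fib (F t) A c ×ˢ fib (F (t - r)) B c') (fun z => U z.1 + V z.2) := by
    rw [h2, sum_product]
    refine sum_congr rfl fun c _ => sum_congr rfl fun c' _ => ?_
    rw [h3]
  rw [← h4]
  exact h1

theorem block (hanti : Antitone F) (hψ : ∀ s z, ψ z ∈ F s ↔ z ∈ F (s - r)) (A B : Finset Γ)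
    {t s : ℕ} (hts : t ≤ s) :
    K (A ×ˢ B) (ps (F t) ψ) +
      ∑ c ∈ cls (F t) A, ∑ c' ∈ cls (F (t - r)) B,
        K (fib (F t) A c ×ˢ fib (F (t - r)) B c') (ps (F s) ψ) ≤
      K (A ×ˢ B) (ps (F s) ψ) := by
  refine blockG F ψ r hψ A B t (pi (F s)) (pj (F s) ψ) ?_
  intro x _ y _ h
  have h' : pi (F s) (y.1 + ψ y.2) = pi (F s) (x.1 + ψ x.2) := h
  rw [ps_eq, ps_eq, pi_eq]
  rw [pi_eq] at h'
  exact hanti hts h'

theorem sum_fibre (A : Finset Γ) {t s : ℕ} (f : Γ → Q (F s))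
    (hf : ∀ x ∈ A, ∀ y ∈ A, f y = f x → pi (F t) y = pi (F t) x) :
    ∑ c ∈ cls (F t) A, K (fib (F t) A c) f = K A f - K A (pi (F t)) := by
  have h := K_fiber A f (pi (F t)) hf
  have h2 : ∑ c ∈ cls (F t) A, K (fib (F t) A c) f =
    ∑ b ∈ A.image (pi (F t)), K (A.filter fun x => pi (F t) x = b) f := rfl
  rw [h2]
  linarith

theorem sum_card_fibre (A : Finset Γ) (t : ℕ) :
    ∑ c ∈ cls (F t) A, ((fib (F t) A c).card : ℝ) = A.card := by
  rw [card_eq_sum_card_image (pi (F t)) A]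
  push_cast
  rfl

/-- one level -/
theorem level (hanti : Antitone F) (hψ : ∀ s z, ψ z ∈ F s ↔ z ∈ F (s - r)) (A B : Finset Γ)
    (ε : ℝ) (hε : 0 < ε) (hε1 : ε ≤ 1) (t : ℕ) :
    K (A ×ˢ B) (ps (F t) ψ) +
      ((1 - ε) * (B.card * (K A (pi (F (t + 1))) - K A (pi (F t))) +
        A.card * (K B (pi (F (t + 1 - r))) - K B (pi (F (t - r))))) -
      2 / ε * exp (1 / ε) * ((K A (pi (F (t + 1))) - K A (pi (F t))) *
        (K B (pi (F (t + 1 - r))) - K B (pi (F (t - r)))))) ≤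
      K (A ×ˢ B) (ps (F (t + 1)) ψ) := by
  have h0 := block F ψ r hanti hψ A B (t := t) (s := t + 1) (Nat.le_succ t)
  set C : ℝ := 2 / ε * exp (1 / ε) with hC
  have h1 : ∀ c ∈ cls (F t) A, ∀ c' ∈ cls (F (t - r)) B,
      (1 - ε) * ((fib (F (t - r)) B c').card * K (fib (F t) A c) (pi (F (t + 1))) +
        (fib (F t) A c).card * K (fib (F (t - r)) B c') (pj (F (t + 1)) ψ)) -
      C * (K (fib (F t) A c) (pi (F (t + 1))) * K (fib (F (t - r)) B c') (pj (F (t + 1)) ψ)) ≤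
      K (fib (F t) A c ×ˢ fib (F (t - r)) B c') (ps (F (t + 1)) ψ) := by
    intro c hc c' hc'
    obtain ⟨x, hx, hxc⟩ := mem_cls.1 hc
    obtain ⟨y, hy, hyc⟩ := mem_cls.1 hc'
    exact lemE (fib (F t) A c) (fib (F (t - r)) B c') (pi (F (t + 1))) (pj (F (t + 1)) ψ)
      ⟨x, mem_fib.2 ⟨hx, hxc⟩⟩ ⟨y, mem_fib.2 ⟨hy, hyc⟩⟩ ε hε hε1
  have h2 : ∑ c ∈ cls (F t) A, ∑ c' ∈ cls (F (t - r)) B,
      ((1 - ε) * ((fib (F (t - r)) B c').card * K (fib (F t) A c) (pi (F (t + 1))) +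
        (fib (F t) A c).card * K (fib (F (t - r)) B c') (pj (F (t + 1)) ψ)) -
      C * (K (fib (F t) A c) (pi (F (t + 1))) * K (fib (F (t - r)) B c') (pj (F (t + 1)) ψ))) ≤
      ∑ c ∈ cls (F t) A, ∑ c' ∈ cls (F (t - r)) B,
        K (fib (F t) A c ×ˢ fib (F (t - r)) B c') (ps (F (t + 1)) ψ) :=
    sum_le_sum fun c hc => sum_le_sum fun c' hc' => h1 c hc c' hc'
  have eA : ∑ c ∈ cls (F t) A, K (fib (F t) A c) (pi (F (t + 1))) =
      K A (pi (F (t + 1))) - K A (pi (F t)) := by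
    refine sum_fibre F A (pi (F (t + 1))) fun x _ y _ h => ?_
    rw [pi_eq] at h ⊢
    exact hanti (Nat.le_succ t) h
  have eB : ∑ c' ∈ cls (F (t - r)) B, K (fib (F (t - r)) B c') (pj (F (t + 1)) ψ) =
      K B (pi (F (t + 1 - r))) - K B (pi (F (t - r))) := by
    rw [sum_fibre F B (pj (F (t + 1)) ψ) (fun x _ y _ h => ?_), K_shift F ψ r hψ]
    unfold pj at h
    rw [pi_eq, ← map_sub, hψ] at h
    rw [pi_eq]
    exact hanti (by omega) h
  have cA := sum_card_fibre F A t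
  have cB := sum_card_fibre F B (t - r)
  have h3 : ∑ c ∈ cls (F t) A, ∑ c' ∈ cls (F (t - r)) B,
      ((1 - ε) * ((fib (F (t - r)) B c').card * K (fib (F t) A c) (pi (F (t + 1))) +
        (fib (F t) A c).card * K (fib (F (t - r)) B c') (pj (F (t + 1)) ψ)) -
      C * (K (fib (F t) A c) (pi (F (t + 1))) * K (fib (F (t - r)) B c') (pj (F (t + 1)) ψ))) =
      (1 - ε) * (B.card * (K A (pi (F (t + 1))) - K A (pi (F t))) +
        A.card * (K B (pi (F (t + 1 - r))) - K B (pi (F (t - r))))) -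
      C * ((K A (pi (F (t + 1))) - K A (pi (F t))) *
        (K B (pi (F (t + 1 - r))) - K B (pi (F (t - r))))) := by
    rw [← eA, ← eB, ← cA, ← cB]
    have gen : ∀ (S : Finset (Q (F t))) (S' : Finset (Q (F (t - r)))) (n k : Q (F t) → ℝ)
        (m l : Q (F (t - r)) → ℝ),
        ∑ c ∈ S, ∑ c' ∈ S', ((1 - ε) * (m c' * k c + n c * l c') - C * (k c * l c')) =
        (1 - ε) * ((∑ c' ∈ S', m c') * (∑ c ∈ S, k c) + (∑ c ∈ S, n c) * ∑ c' ∈ S', l c') -
        C * ((∑ c ∈ S, k c) * ∑ c' ∈ S', l c') := by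
      intro S S' n k m l
      simp only [sum_sub_distrib, ← mul_sum, sum_add_distrib, ← sum_mul]
    exact gen _ _ (fun c => ((fib (F t) A c).card : ℝ)) (fun c => K (fib (F t) A c)
      (pi (F (t + 1)))) (fun c' => ((fib (F (t - r)) B c').card : ℝ))
      (fun c' => K (fib (F (t - r)) B c') (pj (F (t + 1)) ψ))
  linarith

/-- windows, first inequality -/
theorem win1 (hanti : Antitone F) (hψ : ∀ s z, ψ z ∈ F s ↔ z ∈ F (s - r)) (A B : Finset Γ)
    {t s : ℕ} (hts : t ≤ s) :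
    B.card * K A (pi (F t)) + A.card * (K B (pi (F (s - r))) - K B (pi (F (t - r)))) ≤
      K (A ×ˢ B) (ps (F s) ψ) := by
  have h1 := block F ψ r hanti hψ A B hts
  have h2 : B.card * K A (pi (F t)) ≤ K (A ×ˢ B) (ps (F t) ψ) :=
    K_add_ge_fst A B (pi (F t)) (pj (F t) ψ)
  have h3 : ∑ c ∈ cls (F t) A, ∑ c' ∈ cls (F (t - r)) B,
      ((fib (F t) A c).card : ℝ) * K (fib (F (t - r)) B c') (pj (F s) ψ) ≤
      ∑ c ∈ cls (F t) A, ∑ c' ∈ cls (F (t - r)) B,
        K (fib (F t) A c ×ˢ fib (F (t - r)) B c') (ps (F s) ψ) :=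
    sum_le_sum fun c _ => sum_le_sum fun c' _ =>
      K_add_ge_snd (fib (F t) A c) (fib (F (t - r)) B c') (pi (F s)) (pj (F s) ψ)
  have h4 : ∑ c ∈ cls (F t) A, ∑ c' ∈ cls (F (t - r)) B,
      ((fib (F t) A c).card : ℝ) * K (fib (F (t - r)) B c') (pj (F s) ψ) =
      A.card * (K B (pi (F (s - r))) - K B (pi (F (t - r)))) := by
    have gen : ∀ (S : Finset (Q (F t))) (S' : Finset (Q (F (t - r)))) (n : Q (F t) → ℝ)
        (l : Q (F (t - r)) → ℝ), ∑ c ∈ S, ∑ c' ∈ S', n c * l c' =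
          (∑ c ∈ S, n c) * ∑ c' ∈ S', l c' := by
      intro S S' n l
      simp only [← mul_sum, ← sum_mul]
    rw [gen _ _ (fun c => ((fib (F t) A c).card : ℝ))
      (fun c' => K (fib (F (t - r)) B c') (pj (F s) ψ)), sum_card_fibre F A t,
      sum_fibre F B (pj (F s) ψ) (fun x _ y _ h => ?_), K_shift F ψ r hψ]
    unfold pj at h
    rw [pi_eq, ← map_sub, hψ] at h
    rw [pi_eq]
    exact hanti (by omega) h
  linarith

/-- windows, second inequality -/
theorem win2 (hanti : Antitone F) (hψ : ∀ s z, ψ z ∈ F s ↔ z ∈ F (s - r)) (A B : Finset Γ)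
    {t s : ℕ} (hts : t ≤ s) :
    A.card * K B (pi (F (t - r))) + B.card * (K A (pi (F s)) - K A (pi (F t))) ≤
      K (A ×ˢ B) (ps (F s) ψ) := by
  have h1 := block F ψ r hanti hψ A B hts
  have h2 : A.card * K B (pi (F (t - r))) ≤ K (A ×ˢ B) (ps (F t) ψ) := by
    rw [← K_shift F ψ r hψ]
    exact K_add_ge_snd A B (pi (F t)) (pj (F t) ψ)
  have h3 : ∑ c ∈ cls (F t) A, ∑ c' ∈ cls (F (t - r)) B,
      ((fib (F (t - r)) B c').card : ℝ) * K (fib (F t) A c) (pi (F s)) ≤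
      ∑ c ∈ cls (F t) A, ∑ c' ∈ cls (F (t - r)) B,
        K (fib (F t) A c ×ˢ fib (F (t - r)) B c') (ps (F s) ψ) :=
    sum_le_sum fun c _ => sum_le_sum fun c' _ =>
      K_add_ge_fst (fib (F t) A c) (fib (F (t - r)) B c') (pi (F s)) (pj (F s) ψ)
  have h4 : ∑ c ∈ cls (F t) A, ∑ c' ∈ cls (F (t - r)) B,
      ((fib (F (t - r)) B c').card : ℝ) * K (fib (F t) A c) (pi (F s)) =
      B.card * (K A (pi (F s)) - K A (pi (F t))) := by
    have gen : ∀ (S : Finset (Q (F t))) (S' : Finset (Q (F (t - r)))) (k : Q (F t) → ℝ)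
        (m : Q (F (t - r)) → ℝ), ∑ c ∈ S, ∑ c' ∈ S', m c' * k c =
          (∑ c' ∈ S', m c') * ∑ c ∈ S, k c := by
      intro S S' k m
      simp only [← mul_sum, ← sum_mul]
    rw [gen _ _ (fun c => K (fib (F t) A c) (pi (F s)))
      (fun c' => ((fib (F (t - r)) B c').card : ℝ)), sum_card_fibre F B (t - r),
      sum_fibre F A (pi (F s)) (fun x _ y _ h => ?_)]
    rw [pi_eq] at h ⊢
    exact hanti hts h
  linarith

end

/-- **The main inequality**, abstract form. -/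
theorem core_abs (F : ℕ → AddSubgroup Γ) (h0 : F 0 = ⊤) (hanti : Antitone F) (T₀ : ℕ)
    (S : Finset ℕ) (hS : S.Nonempty) (ψ : ℕ → (Γ →+ Γ))
    (hψ : ∀ r ∈ S, ∀ s z, ψ r z ∈ F s ↔ z ∈ F (s - r)) (A B : Finset Γ)
    (hA : A.Nonempty) (hB : B.Nonempty) (Ea Eb m : ℝ)
    (sepA : ∀ t, T₀ ≤ t → K A (pi (F t)) = A.card * Ea)
    (sepB : ∀ t, T₀ ≤ t → K B (pi (F t)) = B.card * Eb)
    (upper : ∀ r ∈ S, ∀ T, K (A ×ˢ B) (ps (F T) (ψ r)) ≤ A.card * B.card * m)
    (ε : ℝ) (hε : 0 < ε) (hε1 : ε ≤ 1) :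
    ((S.card : ℝ) - 1) * ((1 - ε) * (Ea + Eb) - m) ≤
      2 / ε * exp (1 / ε) * (Ea * (2 * m - Ea - Eb)) := by
  classical
  have np : (0 : ℝ) < A.card := by exact_mod_cast card_pos.2 hA
  have mp : (0 : ℝ) < B.card := by exact_mod_cast card_pos.2 hB
  have zA : K A (pi (F 0)) = 0 := by
    refine K_const A _ fun x _ y _ => ?_
    rw [pi_eq, h0]; exact AddSubgroup.mem_top _
  have zB : K B (pi (F 0)) = 0 := by
    refine K_const B _ fun x _ y _ => ?_
    rw [pi_eq, h0]; exact AddSubgroup.mem_top _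
  -- monotonicity
  have mono : ∀ (D : Finset Γ) (s t : ℕ), s ≤ t → K D (pi (F s)) ≤ K D (pi (F t)) := by
    intro D s t hst
    have h := sum_fibre F D (t := s) (pi (F t)) (fun x _ y _ h => by
      rw [pi_eq] at h ⊢; exact hanti hst h)
    have h2 : 0 ≤ ∑ c ∈ cls (F s) D, K (fib (F s) D c) (pi (F t)) :=
      sum_nonneg fun _ _ => K_nonneg _ _
    linarith
  -- the least and the greatest element of `S`
  obtain ⟨J, hJ, hJmax⟩ := S.exists_max_image id hS
  obtain ⟨s₀, hs₀, hs₀min⟩ := S.exists_min_image id hS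
  simp only [id] at hJmax hs₀min
  have hs₀J : s₀ ≤ J := hs₀min J hJ
  -- windows
  have window : ∀ s, K B (pi (F (s - s₀))) - K B (pi (F (s - J))) ≤
      B.card * (2 * m - Ea - Eb) := by
    intro s
    have h1 := (win1 F (ψ J) J hanti (hψ J hJ) A B (t := s) (s := s + T₀ + J)
      (by omega)).trans (upper J hJ _)
    have h2 := (win2 F (ψ s₀) s₀ hanti (hψ s₀ hs₀) A B (t := s) (s := s + T₀)
      (by omega)).trans (upper s₀ hs₀ _)
    rw [sepB _ (by omega)] at h1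
    rw [sepA _ (by omega)] at h2
    have h3 : A.card * (K B (pi (F (s - s₀))) - K B (pi (F (s - J)))) ≤
        A.card * (B.card * (2 * m - Ea - Eb)) := by
      linarith
    exact le_of_mul_le_mul_left h3 np
  -- summation over the levels
  set C : ℝ := 2 / ε * exp (1 / ε) with hC
  have Cp : 0 ≤ C := by rw [hC]; positivity
  obtain ⟨T, hT⟩ : ∃ T, T = T₀ + J := ⟨_, rfl⟩
  have lev : ∀ r ∈ S, (1 - ε) * (B.card * (A.card * Ea) + A.card * (B.card * Eb)) -
      C * ∑ t ∈ range T, (K A (pi (F (t + 1))) - K A (pi (F t))) *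
        (K B (pi (F (t + 1 - r))) - K B (pi (F (t - r)))) ≤ A.card * B.card * m := by
    intro r hr
    have hrJ : r ≤ J := hJmax r hr
    refine le_trans ?_ (upper r hr T)
    have h1 : ∀ t ∈ range T, ((1 - ε) * (B.card * (K A (pi (F (t + 1))) - K A (pi (F t))) +
        A.card * (K B (pi (F (t + 1 - r))) - K B (pi (F (t - r))))) -
        C * ((K A (pi (F (t + 1))) - K A (pi (F t))) *
        (K B (pi (F (t + 1 - r))) - K B (pi (F (t - r)))))) ≤
        K (A ×ˢ B) (ps (F (t + 1)) (ψ r)) - K (A ×ˢ B) (ps (F t) (ψ r)) := by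
      intro t _
      have := level F (ψ r) r hanti (hψ r hr) A B ε hε hε1 t
      linarith
    have h2 := sum_le_sum h1
    have e1 := sum_range_sub (fun t => K (A ×ˢ B) (ps (F t) (ψ r))) T
    have e2 := sum_range_sub (fun t => K A (pi (F t))) T
    have e3 := sum_range_sub (fun t => K B (pi (F (t - r)))) T
    rw [e1, sum_sub_distrib, ← mul_sum, ← mul_sum, sum_add_distrib, ← mul_sum, ← mul_sum,
      e2, e3, zA, sub_zero, Nat.zero_sub, zB, sub_zero,
      sepA T (by omega), sepB (T - r) (by omega)] at h2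
    have h3 := K_nonneg (A ×ˢ B) (ps (F 0) (ψ r))
    linarith
  have h4 := sum_le_sum fun r (hr : r ∈ S.erase J) => lev r (mem_of_mem_erase hr)
  have hcard : ((S.erase J).card : ℝ) = S.card - 1 := by
    rw [card_erase_of_mem hJ, Nat.cast_sub (card_pos.2 hS), Nat.cast_one]
  rw [sum_const, nsmul_eq_mul, sum_sub_distrib, sum_const, nsmul_eq_mul, hcard,
    ← mul_sum, sum_comm] at h4
  have h5 : ∑ t ∈ range T, ∑ r ∈ S.erase J, (K A (pi (F (t + 1))) - K A (pi (F t))) *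
      (K B (pi (F (t + 1 - r))) - K B (pi (F (t - r)))) ≤
      ∑ t ∈ range T, (K A (pi (F (t + 1))) - K A (pi (F t))) *
        (B.card * (2 * m - Ea - Eb)) := by
    refine sum_le_sum fun t _ => ?_
    rw [← mul_sum]
    refine mul_le_mul_of_nonneg_left ?_ (sub_nonneg.2 (mono A t (t + 1) (Nat.le_succ t)))
    refine le_trans ?_ (window (t + 1))
    have h7 : ∑ r ∈ S.erase J, (K B (pi (F (t + 1 - r))) - K B (pi (F (t - r)))) ≤
        ∑ r ∈ Ico s₀ J, (K B (pi (F (t + 1 - r))) - K B (pi (F (t - r)))) := by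
      refine sum_le_sum_of_subset_of_nonneg (fun r hr => ?_) fun r _ _ =>
        sub_nonneg.2 (mono B _ _ (by omega))
      obtain ⟨hr1, hr2⟩ := mem_erase.1 hr
      have := hJmax r hr2
      exact mem_Ico.2 ⟨hs₀min r hr2, by omega⟩
    refine h7.trans (le_of_eq ?_)
    rw [sum_Ico_eq_sum_range]
    have h6 := sum_range_sub' (fun i => K B (pi (F (t + 1 - (s₀ + i))))) (J - s₀)
    rw [show s₀ + (J - s₀) = J by omega, add_zero] at h6
    rw [← h6]
    refine sum_congr rfl fun i _ => ?_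
    rw [show t + 1 - (s₀ + (i + 1)) = t - (s₀ + i) by omega]
  have e2 := sum_range_sub (fun t => K A (pi (F t))) T
  rw [← sum_mul, e2, zA, sub_zero, sepA T (by omega)] at h5
  have h7 := mul_le_mul_of_nonneg_left h5 Cp
  have h8 : (A.card * B.card : ℝ) * (((S.card : ℝ) - 1) * ((1 - ε) * (Ea + Eb) - m)) ≤
      (A.card * B.card : ℝ) * (C * (Ea * (2 * m - Ea - Eb))) := by
    linarith
  exact le_of_mul_le_mul_left h8 (by positivity)

/-- a sum mod `F T`, in terms of the sumset -/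
theorem rel_upper (F : ℕ → AddSubgroup Γ) (ψ : Γ →+ Γ) (r : ℕ)
    (hψ : ∀ s z, ψ z ∈ F s ↔ z ∈ F (s - r)) (A B : Finset Γ) (hA : A.Nonempty) (hB : B.Nonempty)
    (T : ℕ) (M : ℝ) (hM : (Set.ncard {x : Γ | ∃ a ∈ A, ∃ b ∈ B, x = a + ψ b} : ℝ) ≤ M) :
    K (A ×ˢ B) (ps (F T) ψ) + B.card * (A.card * log A.card - K A (pi (F T))) ≤
      A.card * B.card * log M := by
  classical
  have h1 := blockG F ψ r hψ A B T (fun x => x) (fun y => ψ y) (by
    intro x _ y _ h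
    rw [ps_eq, ps_eq, h])
  have h3 : ∑ c ∈ cls (F T) A, ∑ c' ∈ cls (F (T - r)) B,
      ((fib (F (T - r)) B c').card : ℝ) * K (fib (F T) A c) (fun x => x) ≤
      ∑ c ∈ cls (F T) A, ∑ c' ∈ cls (F (T - r)) B,
        K (fib (F T) A c ×ˢ fib (F (T - r)) B c') (fun z => z.1 + ψ z.2) :=
    sum_le_sum fun c _ => sum_le_sum fun c' _ =>
      K_add_ge_fst (fib (F T) A c) (fib (F (T - r)) B c') (fun x => x) (fun y => ψ y)
  have h4 : ∑ c ∈ cls (F T) A, ∑ c' ∈ cls (F (T - r)) B,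
      ((fib (F (T - r)) B c').card : ℝ) * K (fib (F T) A c) (fun x => x) =
      B.card * (A.card * log A.card - K A (pi (F T))) := by
    have gen : ∀ (S : Finset (Q (F T))) (S' : Finset (Q (F (T - r)))) (k : Q (F T) → ℝ)
        (m : Q (F (T - r)) → ℝ), ∑ c ∈ S, ∑ c' ∈ S', m c' * k c =
          (∑ c' ∈ S', m c') * ∑ c ∈ S, k c := by
      intro S S' k m
      simp only [← mul_sum, ← sum_mul]
    rw [gen _ _ (fun c => K (fib (F T) A c) (fun x => x))
      (fun c' => ((fib (F (T - r)) B c').card : ℝ)), sum_card_fibre F B (T - r)]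
    congr 1
    have h5 := K_fiber A (fun x : Γ => x) (pi (F T)) (fun x _ y _ e => by
      rw [e])
    have h6 := K_inj A (fun x : Γ => x) (fun x _ y _ e => e)
    have h7 : ∑ c ∈ cls (F T) A, K (fib (F T) A c) (fun x : Γ => x) =
      ∑ b ∈ A.image (pi (F T)), K (A.filter fun x => pi (F T) x = b) (fun x : Γ => x) := rfl
    rw [h7]
    linarith
  have h5 : K (A ×ˢ B) (fun z => z.1 + ψ z.2) ≤ A.card * B.card * log M := by
    have h6 := K_le (A ×ˢ B) (fun z : Γ × Γ => z.1 + ψ z.2)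
    have h7 : {x : Γ | ∃ a ∈ A, ∃ b ∈ B, x = a + ψ b} =
        ((A ×ˢ B).image (fun z : Γ × Γ => z.1 + ψ z.2) : Finset Γ) := by
      ext x
      simp only [Set.mem_ofPred_eq, coe_image, Set.mem_image, mem_coe, mem_product, Prod.exists]
      constructor
      · rintro ⟨a, ha, b, hb, rfl⟩
        exact ⟨a, b, ⟨ha, hb⟩, rfl⟩
      · rintro ⟨a, b, ⟨ha, hb⟩, rfl⟩
        exact ⟨a, ha, b, hb, rfl⟩
    rw [h7, Set.ncard_coe_finset] at hM
    refine h6.trans ?_
    rw [card_product]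
    push_cast
    refine mul_le_mul_of_nonneg_left (log_le_log ?_ hM) (by positivity)
    exact_mod_cast card_pos.2 ((hA.product hB).image _)
  linarith

end Pool.Agent.U234.LD
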