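import Mathlib

/-! Entropies of functions on finite sets (with the uniform law), multiplied by the number of
points: elementary facts. -/

set_option autoImplicit false

open Finset Real

namespace Pool.Agent.U234.LD

variable {ι κ α β γ : Type*}

open scoped Classical in
/-- the number of the points of `Ω` at which `f` has the same value as at `x` -/
noncomputable def N (Ω : Finset ι) (f : ι → α) (x : ι) : ℕ := (Ω.filter fun y => f y = f x).card

/-- `|Ω|` times the entropy of `f` under the uniform law on `Ω` -/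
noncomputable def K (Ω : Finset ι) (f : ι → α) : ℝ :=
  Ω.card * log Ω.card - ∑ x ∈ Ω, log (N Ω f x)

theorem N_pos {Ω : Finset ι} {f : ι → α} {x : ι} (hx : x ∈ Ω) : 0 < N Ω f x := by
  classical
  exact card_pos.2 ⟨x, mem_filter.2 ⟨hx, rfl⟩⟩

theorem N_le (Ω : Finset ι) (f : ι → α) (x : ι) : N Ω f x ≤ Ω.card := by
  classical
  exact card_filter_le _ _

theorem N_congr {Ω : Finset ι} {f : ι → α} {g : ι → β} {x : ι}
    (h : ∀ y ∈ Ω, (f y = f x ↔ g y = g x)) : N Ω f x = N Ω g x := by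
  classical
  unfold N
  congr 1
  exact filter_congr fun y hy => h y hy

theorem K_eq (Ω : Finset ι) (f : ι → α) :
    K Ω f = ∑ x ∈ Ω, log (Ω.card / N Ω f x) := by
  unfold K
  have : ∑ x ∈ Ω, log ((Ω.card : ℝ) / N Ω f x) = ∑ x ∈ Ω, (log Ω.card - log (N Ω f x)) := by
    refine sum_congr rfl fun x hx => ?_
    have h1 : (0 : ℝ) < N Ω f x := by exact_mod_cast N_pos hx
    have h2 : (0 : ℝ) < Ω.card := by exact_mod_cast card_pos.2 ⟨x, hx⟩
    rw [log_div h2.ne' h1.ne']
  rw [this, sum_sub_distrib, sum_const, nsmul_eq_mul]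

theorem K_congr {Ω : Finset ι} {f : ι → α} {g : ι → β}
    (h : ∀ x ∈ Ω, ∀ y ∈ Ω, (f y = f x ↔ g y = g x)) : K Ω f = K Ω g := by
  unfold K
  rw [sum_congr rfl fun x hx => by rw [N_congr (h x hx)]]

theorem log_ratio_nonneg {Ω : Finset ι} {f : ι → α} {x : ι} (hx : x ∈ Ω) :
    0 ≤ log ((Ω.card : ℝ) / N Ω f x) := by
  refine log_nonneg ?_
  rw [le_div_iff₀ (by exact_mod_cast N_pos hx), one_mul]
  exact_mod_cast N_le Ω f x

theorem K_nonneg (Ω : Finset ι) (f : ι → α) : 0 ≤ K Ω f := by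
  rw [K_eq]
  exact sum_nonneg fun x hx => log_ratio_nonneg hx

theorem K_const (Ω : Finset ι) (f : ι → α) (h : ∀ x ∈ Ω, ∀ y ∈ Ω, f y = f x) : K Ω f = 0 := by
  classical
  rw [K_eq]
  refine sum_eq_zero fun x hx => ?_
  have : N Ω f x = Ω.card := by
    unfold N
    rw [filter_true_of_mem fun y hy => h x hx y hy]
  have h2 : (Ω.card : ℝ) ≠ 0 := by
    have := card_pos.2 ⟨x, hx⟩
    positivity
  rw [this, div_self h2, log_one]

theorem K_inj (Ω : Finset ι) (f : ι → α) (h : ∀ x ∈ Ω, ∀ y ∈ Ω, f y = f x → y = x) :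
    K Ω f = Ω.card * log Ω.card := by
  classical
  unfold K
  have : ∑ x ∈ Ω, log (N Ω f x) = 0 := by
    refine sum_eq_zero fun x hx => ?_
    have : N Ω f x = 1 := by
      unfold N
      rw [card_eq_one]
      refine ⟨x, ?_⟩
      ext y
      rw [mem_filter, mem_singleton]
      exact ⟨fun hy => h x hx y hy.1 hy.2, fun hy => by subst hy; exact ⟨hx, rfl⟩⟩
    rw [this, Nat.cast_one, log_one]
  rw [this, sub_zero]

/-- counting by the values -/
theorem sum_div_N [DecidableEq α] (Ω : Finset ι) (f : ι → α) (g : α → ℝ) :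
    ∑ x ∈ Ω, g (f x) / N Ω f x = ∑ a ∈ Ω.image f, g a := by
  classical
  rw [← sum_fiberwise_of_maps_to (s := Ω) (t := Ω.image f) (g := f)
    (fun x hx => mem_image_of_mem f hx)]
  refine sum_congr rfl fun a ha => ?_
  obtain ⟨x, hx, rfl⟩ := mem_image.1 ha
  have h1 : ∀ y ∈ Ω.filter (fun y => f y = f x), g (f y) / N Ω f y = g (f x) / N Ω f x := by
    intro y hy
    have h2 := (mem_filter.1 hy).2
    unfold N
    rw [h2]
  rw [sum_congr rfl h1, sum_const, nsmul_eq_mul]
  have h3 : ((Ω.filter (fun y => f y = f x)).card : ℝ) = N Ω f x := by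
    unfold N
    congr!
  have h4 : (0 : ℝ) < N Ω f x := by exact_mod_cast N_pos hx
  rw [h3, mul_div_cancel₀ _ h4.ne']

/-- the entropy is at most the logarithm of the number of values -/
theorem K_le [DecidableEq α] (Ω : Finset ι) (f : ι → α) :
    K Ω f ≤ Ω.card * log (Ω.image f).card := by
  classical
  rcases Ω.eq_empty_or_nonempty with rfl | hΩ
  · simp [K]
  have hc : (0 : ℝ) < Ω.card := by exact_mod_cast card_pos.2 hΩ
  have hm : (0 : ℝ) < (Ω.image f).card := by exact_mod_cast card_pos.2 (hΩ.image f)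
  have h1 : ∀ x ∈ Ω, log ((Ω.card : ℝ) / N Ω f x) - log (Ω.image f).card ≤
      (Ω.card : ℝ) / (Ω.image f).card / N Ω f x - 1 := by
    intro x hx
    have h4 : (0 : ℝ) < N Ω f x := by exact_mod_cast N_pos hx
    rw [← log_div (by positivity) (by positivity)]
    refine (log_le_sub_one_of_pos (by positivity)).trans (le_of_eq ?_)
    field_simp
  have h2 := sum_le_sum h1
  have e : ∑ x ∈ Ω, (Ω.card : ℝ) / (Ω.image f).card / N Ω f x =
      ∑ a ∈ Ω.image f, (Ω.card : ℝ) / (Ω.image f).card :=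
    sum_div_N Ω f (fun _ => (Ω.card : ℝ) / (Ω.image f).card)
  rw [sum_sub_distrib, sum_sub_distrib, e, sum_const, sum_const, sum_const, ← K_eq,
    nsmul_eq_mul, nsmul_eq_mul, nsmul_eq_mul, mul_div_cancel₀ _ hm.ne', mul_one, sub_self] at h2
  linarith

/-- submodularity -/
theorem K_sub (Ω : Finset ι) (f : ι → α) (g : ι → β) (h : ι → γ)
    (hf : ∀ x ∈ Ω, ∀ y ∈ Ω, f y = f x → h y = h x) (hg : ∀ x ∈ Ω, ∀ y ∈ Ω, g y = g x → h y = h x) :
    K Ω h + K Ω (fun x => (f x, g x)) ≤ K Ω f + K Ω g := by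
  classical
  have key : ∑ x ∈ Ω, ((N Ω f x : ℝ) * N Ω g x / N Ω h x) / N Ω (fun x => (f x, g x)) x ≤
      Ω.card := by
    -- the summand as the number of pairs
    have h1 : ∀ x ∈ Ω, ((N Ω f x : ℝ) * N Ω g x / N Ω h x) =
        ∑ z ∈ (Ω ×ˢ Ω).filter (fun z => f z.1 = f x ∧ g z.2 = g x), (1 : ℝ) / N Ω h z.1 := by
      intro x hx
      have h2 : ∀ z ∈ (Ω ×ˢ Ω).filter (fun z => f z.1 = f x ∧ g z.2 = g x),
          (1 : ℝ) / N Ω h z.1 = 1 / N Ω h x := by
        intro z hz
        obtain ⟨hz1, hz2, -⟩ := mem_filter.1 hz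
        have h3 := hf x hx z.1 (mem_product.1 hz1).1 hz2
        unfold N
        rw [h3]
      rw [sum_congr rfl h2, sum_const, nsmul_eq_mul]
      have h4 : (Ω ×ˢ Ω).filter (fun z => f z.1 = f x ∧ g z.2 = g x) =
          (Ω.filter fun y => f y = f x) ×ˢ (Ω.filter fun y => g y = g x) := by
        ext z
        simp only [mem_filter, mem_product]
        tauto
      rw [h4, card_product]
      unfold N
      push_cast
      ring
    have h5 : ∑ x ∈ Ω, ((N Ω f x : ℝ) * N Ω g x / N Ω h x) / N Ω (fun x => (f x, g x)) x =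
        ∑ x ∈ Ω, (fun w : α × β => ∑ z ∈ (Ω ×ˢ Ω).filter (fun z => f z.1 = w.1 ∧ g z.2 = w.2),
          (1 : ℝ) / N Ω h z.1) ((fun x => (f x, g x)) x) / N Ω (fun x => (f x, g x)) x := by
      refine sum_congr rfl fun x hx => ?_
      rw [h1 x hx]
    rw [h5, sum_div_N Ω (fun x => (f x, g x)) (fun w : α × β =>
      ∑ z ∈ (Ω ×ˢ Ω).filter (fun z => f z.1 = w.1 ∧ g z.2 = w.2), (1 : ℝ) / N Ω h z.1)]
    -- the pairs which occur have the same value of `h`
    have h6 : ∑ w ∈ Ω.image (fun x => (f x, g x)),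
        ∑ z ∈ (Ω ×ˢ Ω).filter (fun z => f z.1 = w.1 ∧ g z.2 = w.2), (1 : ℝ) / N Ω h z.1 ≤
        ∑ w ∈ Ω.image (fun x => (f x, g x)),
        ∑ z ∈ ((Ω ×ˢ Ω).filter (fun z => h z.2 = h z.1)).filter (fun z => (f z.1, g z.2) = w),
          (1 : ℝ) / N Ω h z.1 := by
      refine sum_le_sum fun w hw => ?_
      obtain ⟨x, hx, rfl⟩ := mem_image.1 hw
      refine sum_le_sum_of_subset_of_nonneg (fun z hz => ?_) fun _ _ _ => by positivity
      obtain ⟨hz1, hz2, hz3⟩ := mem_filter.1 hz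
      have e1 := hf x hx z.1 (mem_product.1 hz1).1 hz2
      have e2 := hg x hx z.2 (mem_product.1 hz1).2 hz3
      refine mem_filter.2 ⟨mem_filter.2 ⟨hz1, e2.trans e1.symm⟩, Prod.ext hz2 hz3⟩
    refine h6.trans ?_
    have h7 : ∑ w ∈ Ω.image (fun x => (f x, g x)),
        ∑ z ∈ ((Ω ×ˢ Ω).filter (fun z => h z.2 = h z.1)).filter (fun z => (f z.1, g z.2) = w),
          (1 : ℝ) / N Ω h z.1 ≤ ∑ z ∈ (Ω ×ˢ Ω).filter (fun z => h z.2 = h z.1), (1 : ℝ) / N Ω h z.1 := by
      rw [← sum_biUnion]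
      · refine sum_le_sum_of_subset_of_nonneg (fun z hz => ?_) fun _ _ _ => by positivity
        obtain ⟨w, _, hz⟩ := mem_biUnion.1 hz
        exact (mem_filter.1 hz).1
      · intro w _ w' _ hww
        rw [Function.onFun, disjoint_left]
        intro z hz hz'
        exact hww ((mem_filter.1 hz).2.symm.trans (mem_filter.1 hz').2)
    refine h7.trans (le_of_eq ?_)
    rw [sum_filter, sum_product]
    have h8 : ∀ x ∈ Ω, ∑ y ∈ Ω, (if h y = h x then (1 : ℝ) / N Ω h x else 0) = 1 := by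
      intro x hx
      rw [← sum_filter, sum_const, nsmul_eq_mul]
      have h4 : (0 : ℝ) < N Ω h x := by exact_mod_cast N_pos hx
      have h3 : ((Ω.filter (fun y => h y = h x)).card : ℝ) = N Ω h x := by
        unfold N
        congr!
      rw [h3, mul_one_div_cancel h4.ne']
    rw [sum_congr rfl h8, sum_const, nsmul_eq_mul, mul_one]
  -- logarithms
  have h9 : ∑ x ∈ Ω, (log (N Ω f x) + log (N Ω g x) - log (N Ω h x) -
      log (N Ω (fun x => (f x, g x)) x)) ≤ 0 := by
    have h10 : ∀ x ∈ Ω, (log (N Ω f x) + log (N Ω g x) - log (N Ω h x) -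
        log (N Ω (fun x => (f x, g x)) x)) ≤
        ((N Ω f x : ℝ) * N Ω g x / N Ω h x) / N Ω (fun x => (f x, g x)) x - 1 := by
      intro x hx
      have p1 : (0 : ℝ) < N Ω f x := by exact_mod_cast N_pos hx
      have p2 : (0 : ℝ) < N Ω g x := by exact_mod_cast N_pos hx
      have p3 : (0 : ℝ) < N Ω h x := by exact_mod_cast N_pos hx
      have p4 : (0 : ℝ) < N Ω (fun x => (f x, g x)) x := by exact_mod_cast N_pos hx
      have := log_le_sub_one_of_pos (x := ((N Ω f x : ℝ) * N Ω g x / N Ω h x) /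
        N Ω (fun x => (f x, g x)) x) (by positivity)
      rw [log_div (by positivity) p4.ne', log_div (by positivity) p3.ne',
        log_mul p1.ne' p2.ne'] at this
      exact this
    have h11 := sum_le_sum h10
    rw [sum_sub_distrib (f := fun x => ((N Ω f x : ℝ) * N Ω g x / N Ω h x) /
      N Ω (fun x => (f x, g x)) x), sum_const, nsmul_eq_mul, mul_one] at h11
    linarith
  rw [sum_sub_distrib, sum_sub_distrib, sum_add_distrib] at h9
  unfold K
  linarith

/-- the entropy of a refinement -/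
theorem K_fiber [DecidableEq β] (Ω : Finset ι) (f : ι → α) (g : ι → β)
    (hf : ∀ x ∈ Ω, ∀ y ∈ Ω, f y = f x → g y = g x) :
    K Ω f = K Ω g + ∑ b ∈ Ω.image g, K (Ω.filter fun x => g x = b) f := by
  classical
  have h1 : ∀ b ∈ Ω.image g, K (Ω.filter fun x => g x = b) f =
      ∑ x ∈ Ω.filter (fun x => g x = b), (log (N Ω g x) - log (N Ω f x)) := by
    intro b hb
    unfold K
    rw [sum_sub_distrib]
    congr 1
    · rw [← nsmul_eq_mul, ← sum_const]
      refine sum_congr rfl fun x hx => ?_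
      have e := (mem_filter.1 hx).2
      subst e
      unfold N
      congr!
    · refine sum_congr rfl fun x hx => ?_
      congr 2
      unfold N
      congr 1
      ext y
      simp only [mem_filter]
      constructor
      · rintro ⟨⟨h2, _⟩, h3⟩
        exact ⟨h2, h3⟩
      · rintro ⟨h2, h3⟩
        exact ⟨⟨h2, (hf x (mem_filter.1 hx).1 y h2 h3).trans (mem_filter.1 hx).2⟩, h3⟩
  rw [sum_congr rfl h1, sum_fiberwise_of_maps_to (fun x hx => mem_image_of_mem g hx)]
  unfold K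
  rw [sum_sub_distrib]
  ring

/-- conditioning: `g` refines `h` -/
theorem K_cond [DecidableEq β] (Ω : Finset ι) (f : ι → α) (g : ι → β) (h : ι → γ)
    (hf : ∀ x ∈ Ω, ∀ y ∈ Ω, f y = f x → h y = h x) (hg : ∀ x ∈ Ω, ∀ y ∈ Ω, g y = g x → h y = h x) :
    K Ω h + ∑ b ∈ Ω.image g, K (Ω.filter fun x => g x = b) f ≤ K Ω f := by
  have h1 := K_sub Ω f g h hf hg
  have h2 := K_fiber Ω (fun x => (f x, g x)) g (fun x _ y _ e => (Prod.ext_iff.1 e).2)
  have h3 : ∀ b ∈ Ω.image g, K (Ω.filter fun x => g x = b) (fun x => (f x, g x)) =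
      K (Ω.filter fun x => g x = b) f := by
    intro b _
    refine K_congr fun x hx y hy => ?_
    rw [Prod.ext_iff]
    exact ⟨fun e => e.1, fun e => ⟨e, (mem_filter.1 hy).2.trans (mem_filter.1 hx).2.symm⟩⟩
  rw [sum_congr rfl h3] at h2
  linarith

section prod

variable (A : Finset ι) (B : Finset κ)

theorem N_pair (U : ι → α) (V : κ → β) (z : ι × κ) :
    N (A ×ˢ B) (fun z => (U z.1, V z.2)) z = N A U z.1 * N B V z.2 := by
  classical
  unfold N
  rw [← card_product]
  congr 1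
  ext w
  simp only [mem_filter, mem_product, Prod.ext_iff]
  tauto

theorem K_pair (U : ι → α) (V : κ → β) :
    K (A ×ˢ B) (fun z => (U z.1, V z.2)) = B.card * K A U + A.card * K B V := by
  rw [K_eq, K_eq, K_eq, sum_product]
  have h1 : ∀ x ∈ A, ∀ y ∈ B, log (((A ×ˢ B).card : ℝ) /
      N (A ×ˢ B) (fun z : ι × κ => (U z.1, V z.2)) (x, y)) =
      log ((A.card : ℝ) / N A U x) + log ((B.card : ℝ) / N B V y) := by
    intro x hx y hy
    have p1 : (0 : ℝ) < N A U x := by exact_mod_cast N_pos hx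
    have p2 : (0 : ℝ) < N B V y := by exact_mod_cast N_pos hy
    have p3 : (0 : ℝ) < A.card := by exact_mod_cast card_pos.2 ⟨x, hx⟩
    have p4 : (0 : ℝ) < B.card := by exact_mod_cast card_pos.2 ⟨y, hy⟩
    rw [N_pair, card_product, ← log_mul (by positivity) (by positivity)]
    congr 1
    push_cast
    field_simp
  rw [sum_congr rfl fun x hx => sum_congr rfl (h1 x hx)]
  simp only [sum_add_distrib, sum_const, nsmul_eq_mul, mul_sum]

theorem K_fst (U : ι → α) : K (A ×ˢ B) (fun z => U z.1) = B.card * K A U := by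
  have h := K_pair A B U (fun _ => ())
  rw [K_const B (fun _ => ()) (fun _ _ _ _ => rfl), mul_zero, add_zero] at h
  rw [← h]
  refine K_congr fun x _ y _ => ?_
  simp [Prod.ext_iff]

theorem K_snd (V : κ → β) : K (A ×ˢ B) (fun z => V z.2) = A.card * K B V := by
  have h := K_pair A B (fun _ => ()) V
  rw [K_const A (fun _ => ()) (fun _ _ _ _ => rfl), mul_zero, zero_add] at h
  rw [← h]
  refine K_congr fun x _ y _ => ?_
  simp [Prod.ext_iff]

variable {G : Type*} [AddCommGroup G]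

theorem K_add_ge_fst (U : ι → G) (V : κ → G) :
    B.card * K A U ≤ K (A ×ˢ B) (fun z => U z.1 + V z.2) := by
  have h1 := K_sub (A ×ˢ B) (fun z => U z.1 + V z.2) (fun z => V z.2) (fun _ => ())
    (fun _ _ _ _ _ => rfl) (fun _ _ _ _ _ => rfl)
  have h2 : K (A ×ˢ B) (fun z => (U z.1 + V z.2, V z.2)) =
      K (A ×ˢ B) (fun z => (U z.1, V z.2)) := by
    refine K_congr fun x _ y _ => ?_
    simp only [Prod.ext_iff]
    constructor
    · rintro ⟨e1, e2⟩
      rw [e2] at e1
      exact ⟨add_right_cancel e1, e2⟩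
    · rintro ⟨e1, e2⟩
      rw [e1, e2]
      exact ⟨rfl, rfl⟩
  rw [h2, K_pair, K_snd] at h1
  have h3 := K_nonneg (A ×ˢ B) (fun _ => ())
  linarith

theorem K_add_ge_snd (U : ι → G) (V : κ → G) :
    A.card * K B V ≤ K (A ×ˢ B) (fun z => U z.1 + V z.2) := by
  have h1 := K_sub (A ×ˢ B) (fun z => U z.1 + V z.2) (fun z => U z.1) (fun _ => ())
    (fun _ _ _ _ _ => rfl) (fun _ _ _ _ _ => rfl)
  have h2 : K (A ×ˢ B) (fun z => (U z.1 + V z.2, U z.1)) =
      K (A ×ˢ B) (fun z => (U z.1, V z.2)) := by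
    refine K_congr fun x _ y _ => ?_
    simp only [Prod.ext_iff]
    constructor
    · rintro ⟨e1, e2⟩
      rw [e2] at e1
      exact ⟨e2, add_left_cancel e1⟩
    · rintro ⟨e1, e2⟩
      rw [e1, e2]
      exact ⟨rfl, rfl⟩
  rw [h2, K_pair, K_fst] at h1
  have h3 := K_nonneg (A ×ˢ B) (fun _ => ())
  linarith

end prod

end Pool.Agent.U234.LD
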