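import Pool.Agent.U234.LD.Ent

/-! The entropy of a sum of two independent variables is nearly the sum of the entropies, up to
the product of the entropies. -/

set_option autoImplicit false

open Finset Real

namespace Pool.Agent.U234.LD

variable {ι κ α β G : Type*}

theorem log_le_div_exp {x : ℝ} (hx : 0 < x) : log x ≤ x / exp 1 := by
  have h1 := log_le_sub_one_of_pos (x := x / exp 1) (by positivity)
  rw [log_div hx.ne' (exp_pos 1).ne', log_exp] at h1
  linarith

open scoped Classical in
/-- the most frequent value -/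
theorem exists_mode (A : Finset ι) (hA : A.Nonempty) (U : ι → α) :
    ∃ u, (∀ a ∈ A, N A U a ≤ (A.filter fun a => U a = u).card) ∧
      (A.filter fun a => U a = u).Nonempty := by
  obtain ⟨a, ha, h⟩ := exists_max_image A (fun a => N A U a) hA
  refine ⟨U a, fun b hb => (h b hb).trans (le_of_eq ?_), ⟨a, mem_filter.2 ⟨ha, rfl⟩⟩⟩
  unfold N
  congr!

open scoped Classical in
theorem mode_facts (A : Finset ι) (hA : A.Nonempty) (U : ι → α) (u : α)
    (hu : ∀ a ∈ A, N A U a ≤ (A.filter fun a => U a = u).card)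
    (hne : (A.filter fun a => U a = u).Nonempty) :
    ((A.filter fun a => U a ≠ u).card : ℝ) ≤ K A U ∧
    (A.filter fun a => U a ≠ u).card * log (A.card / (A.filter fun a => U a ≠ u).card) ≤ K A U ∧
    ∑ a ∈ A.filter (fun a => U a ≠ u), log ((A.card : ℝ) / N A U a) ≤ K A U := by
  have hn : (0 : ℝ) < A.card := by exact_mod_cast card_pos.2 hA
  have hM : (0 : ℝ) < (A.filter fun a => U a = u).card := by exact_mod_cast card_pos.2 hne
  have hsplit : ((A.filter fun a => U a = u).card : ℝ) + (A.filter fun a => U a ≠ u).card =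
      A.card := by exact_mod_cast card_filter_add_card_filter_not (s := A) (fun a => U a = u)
  have h3 : ∑ a ∈ A.filter (fun a => U a ≠ u), log ((A.card : ℝ) / N A U a) ≤ K A U := by
    rw [K_eq]
    exact sum_le_sum_of_subset_of_nonneg (filter_subset _ _) fun a ha _ => log_ratio_nonneg ha
  refine ⟨?_, ?_, h3⟩
  · have h1 : (A.card : ℝ) * log (A.card / (A.filter fun a => U a = u).card) ≤ K A U := by
      rw [K_eq, ← nsmul_eq_mul, ← sum_const]
      refine sum_le_sum fun a ha => ?_
      have p1 : (0 : ℝ) < N A U a := by exact_mod_cast N_pos ha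
      refine log_le_log (by positivity) ?_
      refine div_le_div_of_nonneg_left hn.le p1 ?_
      exact_mod_cast hu a ha
    have h2 := one_sub_inv_le_log_of_pos (x := (A.card : ℝ) / (A.filter fun a => U a = u).card)
      (by positivity)
    have h4 : (A.card : ℝ) * (1 - ((A.card : ℝ) / (A.filter fun a => U a = u).card)⁻¹) =
        (A.filter fun a => U a ≠ u).card := by
      rw [inv_div, mul_sub, mul_one, mul_div_cancel₀ _ hn.ne']
      linarith
    have h5 := mul_le_mul_of_nonneg_left h2 hn.le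
    linarith
  · refine le_trans ?_ h3
    rw [← nsmul_eq_mul, ← sum_const]
    refine sum_le_sum fun a ha => ?_
    obtain ⟨ha1, ha2⟩ := mem_filter.1 ha
    have p1 : (0 : ℝ) < N A U a := by exact_mod_cast N_pos ha1
    have p2 : (0 : ℝ) < (A.filter fun a => U a ≠ u).card := by
      exact_mod_cast card_pos.2 ⟨a, ha⟩
    refine log_le_log (by positivity) ?_
    refine div_le_div_of_nonneg_left hn.le p1 ?_
    have : N A U a ≤ (A.filter fun a => U a ≠ u).card := by
      unfold N
      refine card_le_card fun b hb => ?_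
      obtain ⟨hb1, hb2⟩ := mem_filter.1 hb
      exact mem_filter.2 ⟨hb1, by rw [hb2]; exact ha2⟩
    exact_mod_cast this

section main

variable [AddCommGroup G] (A : Finset ι) (B : Finset κ) (U : ι → G) (V : κ → G)

open scoped Classical in
/-- the number of representations of `s` -/
noncomputable def R (s : G) : ℕ := ((A ×ˢ B).filter fun z => U z.1 + V z.2 = s).card

theorem N_add (z : ι × κ) : N (A ×ˢ B) (fun z => U z.1 + V z.2) z = R A B U V (U z.1 + V z.2) := by
  unfold N R
  congr!

open scoped Classical in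
theorem sum_R_le (T : Finset G) (s₀ : G) (h : s₀ ∉ T) :
    ∑ s ∈ T, (R A B U V s : ℝ) ≤ ((A ×ˢ B).filter fun z => U z.1 + V z.2 ≠ s₀).card := by
  have h1 : ∑ s ∈ T, R A B U V s ≤ ((A ×ˢ B).filter fun z => U z.1 + V z.2 ≠ s₀).card := by
    unfold R
    rw [← card_biUnion]
    · refine card_le_card fun z hz => ?_
      obtain ⟨s, hs, hz⟩ := mem_biUnion.1 hz
      obtain ⟨hz1, hz2⟩ := mem_filter.1 hz
      refine mem_filter.2 ⟨hz1, ?_⟩
      rw [hz2]
      rintro rfl
      exact h hs
    · intro s _ s' _ hss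
      rw [Function.onFun, disjoint_left]
      intro z hz hz'
      exact hss ((mem_filter.1 hz).2.symm.trans (mem_filter.1 hz').2)
  exact_mod_cast h1

open scoped Classical in
/-- Suppose `u` and `v` are the most frequent values. -/
theorem small_case (hA : A.Nonempty) (hB : B.Nonempty) (u v : G)
    (hu : ∀ a ∈ A, N A U a ≤ (A.filter fun a => U a = u).card)
    (hune : (A.filter fun a => U a = u).Nonempty)
    (hv : ∀ b ∈ B, N B V b ≤ (B.filter fun b => V b = v).card)
    (hvne : (B.filter fun b => V b = v).Nonempty) :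
    B.card * K A U + A.card * K B V - 3 * (K A U * K B V) -
      2 / exp 1 * ((A.filter fun a => U a ≠ u).card * B.card +
        (B.filter fun b => V b ≠ v).card * A.card) ≤
      K (A ×ˢ B) (fun z => U z.1 + V z.2) := by
  set n : ℝ := (A.card : ℝ) with hn
  set m : ℝ := (B.card : ℝ) with hm
  set A0 := A.filter fun a => U a = u with hA0
  set A1 := A.filter fun a => U a ≠ u with hA1
  set B0 := B.filter fun b => V b = v with hB0
  set B1 := B.filter fun b => V b ≠ v with hB1
  have np : 0 < n := by rw [hn]; exact_mod_cast card_pos.2 hA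
  have mp : 0 < m := by rw [hm]; exact_mod_cast card_pos.2 hB
  have a0p : (0 : ℝ) < A0.card := by exact_mod_cast card_pos.2 hune
  have b0p : (0 : ℝ) < B0.card := by exact_mod_cast card_pos.2 hvne
  have hAs : (A0.card : ℝ) + A1.card = n := by
    rw [hn]; exact_mod_cast card_filter_add_card_filter_not (s := A) (fun a => U a = u)
  have hBs : (B0.card : ℝ) + B1.card = m := by
    rw [hm]; exact_mod_cast card_filter_add_card_filter_not (s := B) (fun b => V b = v)
  obtain ⟨fA1, -, fA3⟩ := mode_facts A hA U u hu hune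
  obtain ⟨fB1, -, fB3⟩ := mode_facts B hB V v hv hvne
  have ep : (0 : ℝ) < exp 1 := exp_pos 1
  -- the number of pairs with a rare sum
  set X : ℝ := (((A ×ˢ B).filter fun z => U z.1 + V z.2 ≠ u + v).card : ℝ) with hX
  have hXle : X ≤ A1.card * m + B1.card * n := by
    have h1 : (A ×ˢ B).filter (fun z => U z.1 + V z.2 ≠ u + v) ⊆ A1 ×ˢ B ∪ A ×ˢ B1 := by
      intro z hz
      obtain ⟨hz1, hz2⟩ := mem_filter.1 hz
      obtain ⟨ha, hb⟩ := mem_product.1 hz1
      by_cases e : U z.1 = u
      · refine mem_union_right _ (mem_product.2 ⟨ha, mem_filter.2 ⟨hb, fun e' => hz2 ?_⟩⟩)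
        rw [e, e']
      · exact mem_union_left _ (mem_product.2 ⟨mem_filter.2 ⟨ha, e⟩, hb⟩)
    have h2 := (card_le_card h1).trans (card_union_le _ _)
    rw [card_product, card_product] at h2
    have h3 : X ≤ (A1.card : ℝ) * B.card + A.card * B1.card := by
      rw [hX]; exact_mod_cast h2
    rw [← hn, ← hm] at h3
    linarith
  -- the difference of the entropies
  have posR : ∀ a ∈ A, ∀ b ∈ B, (0 : ℝ) < R A B U V (U a + V b) := by
    intro a ha b hb
    have h := N_pos (f := fun z : ι × κ => U z.1 + V z.2) (mem_product.2 ⟨ha, hb⟩ :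
      ((a, b) : ι × κ) ∈ A ×ˢ B)
    rw [N_add A B U V (a, b)] at h
    exact_mod_cast h
  have hmain : B.card * K A U + A.card * K B V - K (A ×ˢ B) (fun z => U z.1 + V z.2) =
      ∑ a ∈ A, ∑ b ∈ B, log ((R A B U V (U a + V b) : ℝ) / (N A U a * N B V b)) := by
    rw [← K_pair A B U V]
    unfold K
    rw [sum_product, sum_product, sub_sub_sub_cancel_left, ← sum_sub_distrib]
    refine sum_congr rfl fun a ha => ?_
    rw [← sum_sub_distrib]
    refine sum_congr rfl fun b hb => ?_
    have p1 : (0 : ℝ) < N A U a := by exact_mod_cast N_pos ha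
    have p2 : (0 : ℝ) < N B V b := by exact_mod_cast N_pos hb
    have p3 := posR a ha b hb
    rw [N_add, N_pair, log_div p3.ne' (by positivity)]
    push_cast
    rfl
  have posU : ∀ a ∈ A, (0 : ℝ) < N A U a := fun a ha => by exact_mod_cast N_pos ha
  have posV : ∀ b ∈ B, (0 : ℝ) < N B V b := fun b hb => by exact_mod_cast N_pos hb
  have NU0 : ∀ a ∈ A0, (N A U a : ℝ) = A0.card := by
    intro a ha
    have e := (mem_filter.1 ha).2
    rw [hA0]
    unfold N
    subst e
    congr!
  have NV0 : ∀ b ∈ B0, (N B V b : ℝ) = B0.card := by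
    intro b hb
    have e := (mem_filter.1 hb).2
    rw [hB0]
    unfold N
    subst e
    congr!
  have hsplitA : ∀ f : ι → ℝ, ∑ a ∈ A, f a = ∑ a ∈ A0, f a + ∑ a ∈ A1, f a := fun f =>
    (sum_filter_add_sum_filter_not A (fun a => U a = u) f).symm
  have hsplitB : ∀ f : κ → ℝ, ∑ b ∈ B, f b = ∑ b ∈ B0, f b + ∑ b ∈ B1, f b := fun f =>
    (sum_filter_add_sum_filter_not B (fun b => V b = v) f).symm
  have A0A : ∀ a ∈ A0, a ∈ A := fun a ha => (mem_filter.1 ha).1
  have A1A : ∀ a ∈ A1, a ∈ A := fun a ha => (mem_filter.1 ha).1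
  have B0B : ∀ b ∈ B0, b ∈ B := fun b hb => (mem_filter.1 hb).1
  have B1B : ∀ b ∈ B1, b ∈ B := fun b hb => (mem_filter.1 hb).1
  -- class (0,0)
  have c00 : ∑ a ∈ A0, ∑ b ∈ B0, log ((R A B U V (U a + V b) : ℝ) / (N A U a * N B V b)) ≤
      K A U * K B V := by
    have hR : (R A B U V (u + v) : ℝ) ≤ A0.card * B0.card + A1.card * B1.card := by
      have h1 : (A ×ˢ B).filter (fun z => U z.1 + V z.2 = u + v) ⊆ A0 ×ˢ B0 ∪ A1 ×ˢ B1 := by
        intro z hz
        obtain ⟨hz1, hz2⟩ := mem_filter.1 hz
        obtain ⟨ha, hb⟩ := mem_product.1 hz1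
        by_cases e : U z.1 = u
        · refine mem_union_left _ (mem_product.2 ⟨mem_filter.2 ⟨ha, e⟩, mem_filter.2 ⟨hb, ?_⟩⟩)
          rw [e] at hz2
          exact add_left_cancel hz2
        · refine mem_union_right _ (mem_product.2 ⟨mem_filter.2 ⟨ha, e⟩, mem_filter.2 ⟨hb, ?_⟩⟩)
          intro e'
          rw [e'] at hz2
          exact e (add_right_cancel hz2)
      have h2 := (card_le_card h1).trans (card_union_le _ _)
      rw [card_product, card_product] at h2
      unfold R
      exact_mod_cast h2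
    have h1 : ∀ a ∈ A0, ∀ b ∈ B0, log ((R A B U V (U a + V b) : ℝ) / (N A U a * N B V b)) ≤
        (A1.card : ℝ) * B1.card / (A0.card * B0.card) := by
      intro a ha b hb
      have p := posR a (A0A a ha) b (B0B b hb)
      rw [NU0 a ha, NV0 b hb]
      refine (log_le_sub_one_of_pos (by positivity)).trans ?_
      rw [(mem_filter.1 ha).2, (mem_filter.1 hb).2, sub_le_iff_le_add, div_add_one (by positivity)]
      refine div_le_div_of_nonneg_right ?_ (by positivity)
      linarith
    refine (sum_le_sum fun a ha => sum_le_sum fun b hb => h1 a ha b hb).trans ?_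
    rw [sum_const, sum_const, nsmul_eq_mul, nsmul_eq_mul]
    have h2 : (A0.card : ℝ) * (B0.card * ((A1.card : ℝ) * B1.card / (A0.card * B0.card))) =
        A1.card * B1.card := by
      field_simp
    rw [h2]
    exact mul_le_mul fA1 fB1 (by positivity) (K_nonneg _ _)
  -- class (0,1)
  have c01 : ∑ a ∈ A0, ∑ b ∈ B1, log ((R A B U V (U a + V b) : ℝ) / (N A U a * N B V b)) ≤
      X / exp 1 := by
    have h1 : ∀ a ∈ A0, ∀ b ∈ B1, log ((R A B U V (U a + V b) : ℝ) / (N A U a * N B V b)) ≤
        (R A B U V (u + V b) : ℝ) / N B V b / (A0.card * exp 1) := by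
      intro a ha b hb
      have p := posR a (A0A a ha) b (B1B b hb)
      have p2 := posV b (B1B b hb)
      rw [NU0 a ha, (mem_filter.1 ha).2] at *
      refine (log_le_div_exp (by positivity)).trans (le_of_eq ?_)
      field_simp
    refine (sum_le_sum fun a ha => sum_le_sum fun b hb => h1 a ha b hb).trans ?_
    rw [sum_const, nsmul_eq_mul, ← sum_div]
    have h2 : ∑ b ∈ B1, (R A B U V (u + V b) : ℝ) / N B V b =
        ∑ b ∈ B1, (R A B U V (u + V b) : ℝ) / N B1 V b := by
      refine sum_congr rfl fun b hb => ?_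
      congr 2
      unfold N
      congr 1
      ext b'
      simp only [mem_filter, hB1]
      have hb2 := (mem_filter.1 hb).2
      constructor
      · rintro ⟨e1, e2⟩
        exact ⟨⟨e1, by rw [e2]; exact hb2⟩, e2⟩
      · rintro ⟨⟨e1, _⟩, e2⟩
        exact ⟨e1, e2⟩
    have h3 := sum_div_N B1 V (fun w => (R A B U V (u + w) : ℝ))
    have h4 : ∑ w ∈ B1.image V, (R A B U V (u + w) : ℝ) ≤ X := by
      have h5 := sum_R_le A B U V ((B1.image V).image fun w => u + w) (u + v) (by
        intro h
        obtain ⟨w, hw, e⟩ := mem_image.1 h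
        obtain ⟨b, hb, rfl⟩ := mem_image.1 hw
        exact (mem_filter.1 hb).2 (add_left_cancel e))
      rw [sum_image fun x _ y _ e => add_left_cancel e] at h5
      exact h5
    rw [h2, h3]
    have h6 : (A0.card : ℝ) * ((∑ w ∈ B1.image V, (R A B U V (u + w) : ℝ)) / (A0.card * exp 1)) =
        (∑ w ∈ B1.image V, (R A B U V (u + w) : ℝ)) / exp 1 := by
      field_simp
    rw [h6]
    exact div_le_div_of_nonneg_right h4 ep.le
  -- class (1,0)
  have c10 : ∑ a ∈ A1, ∑ b ∈ B0, log ((R A B U V (U a + V b) : ℝ) / (N A U a * N B V b)) ≤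
      X / exp 1 := by
    have h1 : ∀ a ∈ A1, ∀ b ∈ B0, log ((R A B U V (U a + V b) : ℝ) / (N A U a * N B V b)) ≤
        (R A B U V (U a + v) : ℝ) / N A U a / (B0.card * exp 1) := by
      intro a ha b hb
      have p := posR a (A1A a ha) b (B0B b hb)
      have p2 := posU a (A1A a ha)
      rw [NV0 b hb, (mem_filter.1 hb).2] at *
      refine (log_le_div_exp (by positivity)).trans (le_of_eq ?_)
      field_simp
    rw [sum_comm]
    refine (sum_le_sum fun b hb => sum_le_sum fun a ha => h1 a ha b hb).trans ?_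
    rw [sum_const, nsmul_eq_mul, ← sum_div]
    have h2 : ∑ a ∈ A1, (R A B U V (U a + v) : ℝ) / N A U a =
        ∑ a ∈ A1, (R A B U V (U a + v) : ℝ) / N A1 U a := by
      refine sum_congr rfl fun a ha => ?_
      congr 2
      unfold N
      congr 1
      ext a'
      simp only [mem_filter, hA1]
      have ha2 := (mem_filter.1 ha).2
      constructor
      · rintro ⟨e1, e2⟩
        exact ⟨⟨e1, by rw [e2]; exact ha2⟩, e2⟩
      · rintro ⟨⟨e1, _⟩, e2⟩
        exact ⟨e1, e2⟩
    have h3 := sum_div_N A1 U (fun w => (R A B U V (w + v) : ℝ))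
    have h4 : ∑ w ∈ A1.image U, (R A B U V (w + v) : ℝ) ≤ X := by
      have h5 := sum_R_le A B U V ((A1.image U).image fun w => w + v) (u + v) (by
        intro h
        obtain ⟨w, hw, e⟩ := mem_image.1 h
        obtain ⟨b, hb, rfl⟩ := mem_image.1 hw
        exact (mem_filter.1 hb).2 (add_right_cancel e))
      rw [sum_image fun x _ y _ e => add_right_cancel e] at h5
      exact h5
    rw [h2, h3]
    have h6 : (B0.card : ℝ) * ((∑ w ∈ A1.image U, (R A B U V (w + v) : ℝ)) / (B0.card * exp 1)) =
        (∑ w ∈ A1.image U, (R A B U V (w + v) : ℝ)) / exp 1 := by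
      field_simp
    rw [h6]
    exact div_le_div_of_nonneg_right h4 ep.le
  -- class (1,1)
  have c11 : ∑ a ∈ A1, ∑ b ∈ B1, log ((R A B U V (U a + V b) : ℝ) / (N A U a * N B V b)) ≤
      2 * (K A U * K B V) := by
    have h1 : ∀ a ∈ A1, ∀ b ∈ B1, log ((R A B U V (U a + V b) : ℝ) / (N A U a * N B V b)) ≤
        log (n / N A U a) + log (m / N B V b) := by
      intro a ha b hb
      have p := posR a (A1A a ha) b (B1B b hb)
      have p1 := posU a (A1A a ha)
      have p2 := posV b (B1B b hb)
      rw [← log_mul (by positivity) (by positivity)]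
      refine log_le_log (by positivity) ?_
      rw [div_mul_div_comm]
      refine div_le_div_of_nonneg_right ?_ (by positivity)
      have h2 : R A B U V (U a + V b) ≤ A.card * B.card := by
        unfold R
        rw [← card_product]
        exact card_filter_le _ _
      rw [hn, hm]
      exact_mod_cast h2
    refine (sum_le_sum fun a ha => sum_le_sum fun b hb => h1 a ha b hb).trans ?_
    simp only [sum_add_distrib, sum_const, nsmul_eq_mul, ← mul_sum]
    have h2 : (B1.card : ℝ) * ∑ a ∈ A1, log (n / N A U a) ≤ K B V * K A U :=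
      mul_le_mul fB1 fA3 (sum_nonneg fun a ha => log_ratio_nonneg (A1A a ha)) (K_nonneg _ _)
    have h3 : (A1.card : ℝ) * ∑ b ∈ B1, log (m / N B V b) ≤ K A U * K B V :=
      mul_le_mul fA1 fB3 (sum_nonneg fun b hb => log_ratio_nonneg (B1B b hb)) (K_nonneg _ _)
    linarith
  have htot : ∑ a ∈ A, ∑ b ∈ B, log ((R A B U V (U a + V b) : ℝ) / (N A U a * N B V b)) ≤
      3 * (K A U * K B V) + 2 * (X / exp 1) := by
    rw [hsplitA]
    simp only [hsplitB, sum_add_distrib]
    linarith
  have hfin : 2 * (X / exp 1) ≤ 2 / exp 1 * (A1.card * m + B1.card * n) := by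
    have : 2 * (X / exp 1) = 2 / exp 1 * X := by ring
    rw [this]
    exact mul_le_mul_of_nonneg_left hXle (by positivity)
  linarith

/-- **The lemma.** -/
theorem lemE (hA : A.Nonempty) (hB : B.Nonempty) (ε : ℝ) (hε : 0 < ε) (hε1 : ε ≤ 1) :
    (1 - ε) * (B.card * K A U + A.card * K B V) - 2 / ε * exp (1 / ε) * (K A U * K B V) ≤
      K (A ×ˢ B) (fun z => U z.1 + V z.2) := by
  classical
  have k0 := K_nonneg A U
  have l0 := K_nonneg B V
  have s1 := K_add_ge_fst A B U V
  have s2 := K_add_ge_snd A B U V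
  set k := K A U
  set l := K B V
  set S := K (A ×ˢ B) (fun z => U z.1 + V z.2)
  have np : (0 : ℝ) < A.card := by exact_mod_cast card_pos.2 hA
  have mp : (0 : ℝ) < B.card := by exact_mod_cast card_pos.2 hB
  have Cp : 0 < 2 / ε * exp (1 / ε) := by positivity
  have kl : 0 ≤ k * l := mul_nonneg k0 l0
  have mk0 : 0 ≤ (B.card : ℝ) * k := by positivity
  have nl0 : 0 ≤ (A.card : ℝ) * l := by positivity
  have Ckl : 0 ≤ 2 / ε * exp (1 / ε) * (k * l) := by positivity
  by_cases c1 : A.card * l ≤ ε * (B.card * k)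
  · nlinarith
  by_cases c2 : B.card * k ≤ ε * (A.card * l)
  · nlinarith
  push Not at c1 c2
  have hS0 : 0 ≤ S := le_trans mk0 s1
  have eprod : exp (-(1 / ε)) * exp (1 / ε) = 1 := by
    rw [← exp_add, neg_add_cancel, exp_zero]
  -- one of the entropies is large
  by_cases c3 : exp (-(1 / ε)) * A.card ≤ k
  · have h1 : 2 / ε * (A.card * l) ≤ 2 / ε * exp (1 / ε) * (k * l) := by
      have h2 : 2 / ε * (A.card * l) = 2 / ε * exp (1 / ε) * ((exp (-(1 / ε)) * A.card) * l) := by
        have : 2 / ε * exp (1 / ε) * ((exp (-(1 / ε)) * A.card) * l) =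
          2 / ε * (exp (-(1 / ε)) * exp (1 / ε)) * (A.card * l) := by ring
        rw [this, eprod, mul_one]
      rw [h2]
      exact mul_le_mul_of_nonneg_left (mul_le_mul_of_nonneg_right c3 l0) Cp.le
    have h3 : B.card * k < (1 / ε) * (A.card * l) ∨ A.card * l ≤ 1 / ε * (A.card * l) := by
      right
      have : 1 ≤ 1 / ε := by rw [le_div_iff₀ hε]; linarith
      nlinarith
    have h4 : B.card * k ≤ 1 / ε * (A.card * l) := by
      rw [div_mul_eq_mul_div, one_mul, le_div_iff₀ hε]
      linarith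
    have h5 : A.card * l ≤ 1 / ε * (A.card * l) := by
      have : 1 ≤ 1 / ε := by rw [le_div_iff₀ hε]; linarith
      nlinarith
    have h6 : 2 / ε * (A.card * l) = 1 / ε * (A.card * l) + 1 / ε * (A.card * l) := by ring
    nlinarith
  by_cases c4 : exp (-(1 / ε)) * B.card ≤ l
  · have h1 : 2 / ε * (B.card * k) ≤ 2 / ε * exp (1 / ε) * (k * l) := by
      have h2 : 2 / ε * (B.card * k) = 2 / ε * exp (1 / ε) * (k * (exp (-(1 / ε)) * B.card)) := by
        have : 2 / ε * exp (1 / ε) * (k * (exp (-(1 / ε)) * B.card)) =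
          2 / ε * (exp (-(1 / ε)) * exp (1 / ε)) * (B.card * k) := by ring
        rw [this, eprod, mul_one]
      rw [h2]
      exact mul_le_mul_of_nonneg_left (mul_le_mul_of_nonneg_left c4 k0) Cp.le
    have h4 : A.card * l ≤ 1 / ε * (B.card * k) := by
      rw [div_mul_eq_mul_div, one_mul, le_div_iff₀ hε]
      linarith
    have h5 : B.card * k ≤ 1 / ε * (B.card * k) := by
      have : 1 ≤ 1 / ε := by rw [le_div_iff₀ hε]; linarith
      nlinarith
    have h6 : 2 / ε * (B.card * k) = 1 / ε * (B.card * k) + 1 / ε * (B.card * k) := by ring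
    nlinarith
  push Not at c3 c4
  -- both are small
  obtain ⟨u, hu, hune⟩ := exists_mode A hA U
  obtain ⟨v, hv, hvne⟩ := exists_mode B hB V
  have hs := small_case A B U V hA hB u v hu hune hv hvne
  obtain ⟨fA1, fA2, -⟩ := mode_facts A hA U u hu hune
  obtain ⟨fB1, fB2, -⟩ := mode_facts B hB V v hv hvne
  have aux : ∀ (P n k : ℝ), 0 ≤ P → 0 < n → P ≤ k → k < exp (-(1 / ε)) * n →
      P * log (n / P) ≤ k → P ≤ ε * k := by
    intro P n k hP hn hPk hk hlog
    rcases hP.eq_or_lt with rfl | hP
    · nlinarith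
    have h1 : exp (1 / ε) ≤ n / P := by
      rw [le_div_iff₀ hP]
      have h2 : P < exp (-(1 / ε)) * n := lt_of_le_of_lt hPk hk
      have h3 : exp (1 / ε) * P ≤ exp (1 / ε) * (exp (-(1 / ε)) * n) :=
        mul_le_mul_of_nonneg_left h2.le (exp_pos _).le
      have h4 : exp (1 / ε) * (exp (-(1 / ε)) * n) = n := by
        rw [← mul_assoc, mul_comm (exp (1 / ε)), eprod, one_mul]
      linarith
    have h5 : 1 / ε ≤ log (n / P) := by
      rw [le_log_iff_exp_le (by positivity)]
      exact h1
    have h6 : P * (1 / ε) ≤ k := (mul_le_mul_of_nonneg_left h5 hP.le).trans hlog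
    rw [mul_one_div, div_le_iff₀ hε] at h6
    linarith
  have gA := aux _ _ _ (by positivity) np fA1 c3 fA2
  have gB := aux _ _ _ (by positivity) mp fB1 c4 fB2
  have e2 : (2.7182818283 : ℝ) < exp 1 := exp_one_gt_d9
  have ep : (0 : ℝ) < exp 1 := exp_pos 1
  have h2e : 2 / exp 1 ≤ 1 := by
    rw [div_le_one ep]; linarith
  set P : ℝ := ((A.filter fun a => U a ≠ u).card : ℝ)
  set Q : ℝ := ((B.filter fun b => V b ≠ v).card : ℝ)
  have hP0 : 0 ≤ P := by positivity
  have hQ0 : 0 ≤ Q := by positivity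
  have t1 : 2 / exp 1 * (P * B.card + Q * A.card) ≤ ε * (B.card * k + A.card * l) := by
    have h1 : 2 / exp 1 * (P * B.card + Q * A.card) ≤ P * B.card + Q * A.card := by
      have : 0 ≤ P * B.card + Q * A.card := by positivity
      nlinarith
    have h2 : P * B.card ≤ ε * k * B.card := mul_le_mul_of_nonneg_right gA mp.le
    have h3 : Q * A.card ≤ ε * l * A.card := mul_le_mul_of_nonneg_right gB np.le
    linarith
  have t2 : 3 * (k * l) ≤ 2 / ε * exp (1 / ε) * (k * l) := by
    refine mul_le_mul_of_nonneg_right ?_ kl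
    have h1 : 1 ≤ 1 / ε := by rw [le_div_iff₀ hε]; linarith
    have h2 : exp 1 ≤ exp (1 / ε) := exp_le_exp.2 h1
    have h3 : 2 ≤ 2 / ε := by
      have : 2 / ε = 2 * (1 / ε) := by ring
      rw [this]; linarith
    nlinarith
  linarith

end main

end Pool.Agent.U234.LD
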