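import Pool.Agent.U234.LD.Pow

/-! The `p`-adic valuations of integral and rational dilates; endomorphisms. -/

set_option autoImplicit false

open Finset Real
open scoped Pointwise

namespace Pool.Agent.U234.LD

theorem padic_discrete (p : ℕ) [Fact p.Prime] : (Rat.padicValuation p).IsRankOneDiscrete := by
  have h1 : (Rat.padicValuation p).IsNontrivial := by
    refine ⟨⟨p, ?_, ?_⟩⟩
    · rw [Rat.padicValuation_self]; exact WithZero.exp_ne_zero
    · rw [Rat.padicValuation_self, Ne, ← WithZero.exp_zero, WithZero.exp_injective.eq_iff]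
      norm_num
  infer_instance

theorem padic_val (p : ℕ) [Fact p.Prime] (c : ℚ) (hc : c ≠ 0) :
    Rat.padicValuation p c = WithZero.exp (-padicValRat p c) := by
  simp [Rat.padicValuation, hc]

theorem exp_inj : Function.Injective (fun n : ℤ => (WithZero.exp (-n) : WithZero (Multiplicative ℤ))) :=
  fun _ _ h => neg_injective (WithZero.exp_injective h)

/-- rational dilates, exceptional valuations -/
theorem rat_exceptional (p : ℕ) [Fact p.Prime] {V : Type*} [AddCommGroup V] [Module ℚ V]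
    [DecidableEq V] (A B : Finset V) (hA : A.Nonempty) (hB : B.Nonempty)
    (δ : ℝ) (hδ : 0 < δ) (hδ1 : δ ≤ 1) :
    {n : ℤ | ∃ c : ℚ, c ≠ 0 ∧ padicValRat p c = n ∧ ((A + B.image fun x => c • x).card : ℝ) <
        ((A.card : ℝ) * B.card) ^ (1 - δ)}.Finite ∧
    (Set.ncard {n : ℤ | ∃ c : ℚ, c ≠ 0 ∧ padicValRat p c = n ∧
      ((A + B.image fun x => c • x).card : ℝ) < ((A.card : ℝ) * B.card) ^ (1 - δ)} : ℝ) ≤
      CE δ * log (A.card * B.card) := by
  have := padic_discrete p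
  have h := exceptional_val (Rat.padicValuation p) A B hA hB δ hδ hδ1
  have hmap : ∀ n ∈ {n : ℤ | ∃ c : ℚ, c ≠ 0 ∧ padicValRat p c = n ∧
      ((A + B.image fun x => c • x).card : ℝ) < ((A.card : ℝ) * B.card) ^ (1 - δ)},
      (WithZero.exp (-n) : WithZero (Multiplicative ℤ)) ∈ {g : WithZero (Multiplicative ℤ) |
      ∃ c : ℚ, c ≠ 0 ∧ Rat.padicValuation p c = g ∧
      ((A + B.image fun x => c • x).card : ℝ) < ((A.card : ℝ) * B.card) ^ (1 - δ)} := by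
    rintro n ⟨c, hc, rfl, hlt⟩
    exact ⟨c, hc, padic_val p c hc, hlt⟩
  refine ⟨Set.Finite.of_injOn hmap exp_inj.injOn h.1, le_trans ?_ h.2⟩
  exact_mod_cast Set.ncard_le_ncard_of_injOn _ hmap exp_inj.injOn h.1

/-- rational dilates, small sums -/
theorem rat_small (p : ℕ) [Fact p.Prime] {V : Type*} [AddCommGroup V] [Module ℚ V]
    [DecidableEq V] (A : Finset V) (hA : A.Nonempty) (K : ℝ) (hK : 1 ≤ K)
    (δ : ℝ) (hδ : 0 < δ) (hδ1 : δ ≤ 1) (G : Finset ℤ) (hG : 2 * (CS δ * (1 + log K)) ≤ G.card)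
    (hsum : ∀ n ∈ G, ∃ c : ℚ, c ≠ 0 ∧ padicValRat p c = n ∧
      ((A + A.image fun x => c • x).card : ℝ) ≤ K * A.card) :
    (A.card : ℝ) ≤ K ^ (1 + δ) := by
  classical
  have := padic_discrete p
  refine small_val (Rat.padicValuation p) A hA K hK δ hδ hδ1
    (G.image (fun n : ℤ => (WithZero.exp (-n) : WithZero (Multiplicative ℤ)))) ?_ ?_
  · rw [Finset.card_image_of_injective _ exp_inj]
    exact hG
  · intro g hg
    obtain ⟨n, hn, rfl⟩ := mem_image.1 hg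
    obtain ⟨c, hc, rfl, hle⟩ := hsum n hn
    exact ⟨c, hc, padic_val p c hc, hle⟩

/-- an integer is a power of `p` times a number which is prime to `p` -/
theorem int_decomp (p : ℕ) (hp : p.Prime) (d : ℤ) (hd : d ≠ 0) :
    ∃ u : ℤ, IsCoprime u (p : ℤ) ∧ d = (p : ℤ) ^ padicValInt p d * u := by
  have : Fact p.Prime := ⟨hp⟩
  obtain ⟨u, hu⟩ := (padicValInt_dvd_iff (padicValInt p d) d).2 (Or.inr le_rfl)
  refine ⟨u, ?_, hu⟩
  have h1 : Irreducible (p : ℤ) := (Nat.prime_iff_prime_int.1 hp).irreducible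
  refine (h1.coprime_iff_not_dvd.2 ?_).symm
  rintro ⟨w, hw⟩
  have h2 : (p : ℤ) ^ (padicValInt p d + 1) ∣ d := ⟨w, by
    rw [pow_succ, mul_assoc, ← hw]; exact hu⟩
  rcases (padicValInt_dvd_iff _ _).1 h2 with h | h
  · exact hd h
  · omega

/-- integral dilates in torsion-free groups -/
theorem int_exceptional {Γ : Type*} [AddCommGroup Γ] [DecidableEq Γ]
    (htf : ∀ (n : ℤ) (x : Γ), n ≠ 0 → n • x = 0 → x = 0) (q : ℕ) (hq : 2 ≤ q)
    (A B : Finset Γ) (hA : A.Nonempty) (hB : B.Nonempty) (δ : ℝ) (hδ : 0 < δ) (hδ1 : δ ≤ 1) :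
    {s : ℕ | ∃ u : ℤ, IsCoprime u (q : ℤ) ∧
      ((A + B.image fun x => ((q : ℤ) ^ s * u) • x).card : ℝ) <
        ((A.card : ℝ) * B.card) ^ (1 - δ)}.Finite ∧
    (Set.ncard {s : ℕ | ∃ u : ℤ, IsCoprime u (q : ℤ) ∧
      ((A + B.image fun x => ((q : ℤ) ^ s * u) • x).card : ℝ) <
        ((A.card : ℝ) * B.card) ^ (1 - δ)} : ℝ) ≤ CE δ * log A.card := by
  have h := exceptional_mod (R := ℤ) (M := Γ) (q : ℤ) (by
    intro x i c h
    refine htf _ x (mul_ne_zero (pow_ne_zero _ (by positivity)) ?_) h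
    intro h
    have h4 : IsUnit (q : ℤ) := IsUnit.of_mul_eq_one c (by linarith)
    rw [Int.isUnit_iff] at h4
    omega) A B hA hB δ hδ hδ1
  have e : {s : ℕ | ∃ u : ℤ, IsCoprime u (q : ℤ) ∧
      ((A + B.image fun x => ((q : ℤ) ^ s * u) • x).card : ℝ) <
        ((A.card : ℝ) * B.card) ^ (1 - δ)} = {r : ℕ | ∃ u : ℤ, IsCoprime u (q : ℤ) ∧
      (Set.ncard {x : Γ | ∃ a ∈ A, ∃ b ∈ B, x = a + ((q : ℤ) ^ r * u) • b} : ℝ) <
        ((A.card : ℝ) * B.card) ^ (1 - δ)} := by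
    ext s
    simp only [Set.mem_ofPred_eq]
    refine exists_congr fun u => and_congr_right fun _ => ?_
    rw [ncard_image A B (fun x => ((q : ℤ) ^ s * u) • x)]
  rw [e]
  exact h

/-- endomorphisms -/
theorem endo_exceptional {Γ : Type*} [AddCommGroup Γ] [DecidableEq Γ] (φ : Module.End ℤ Γ)
    (hφ : Ker φ = ⊥)
    (A B : Finset Γ) (hA : A.Nonempty) (hB : B.Nonempty) (δ : ℝ) (hδ : 0 < δ) (hδ1 : δ ≤ 1) :
    {s : ℕ | ∃ Q : Polynomial ℤ, Q.coeff 0 = 1 ∧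
      ((A + B.image fun x => (Polynomial.aeval φ (Polynomial.X ^ s * Q)) x).card : ℝ) <
        ((A.card : ℝ) * B.card) ^ (1 - δ)}.Finite ∧
    (Set.ncard {s : ℕ | ∃ Q : Polynomial ℤ, Q.coeff 0 = 1 ∧
      ((A + B.image fun x => (Polynomial.aeval φ (Polynomial.X ^ s * Q)) x).card : ℝ) <
        ((A.card : ℝ) * B.card) ^ (1 - δ)} : ℝ) ≤ CE δ * log A.card := by
  let _ : Module (Polynomial ℤ) Γ := Module.compHom Γ
    ((Polynomial.aeval φ).toRingHom : Polynomial ℤ →+* Module.End ℤ Γ)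
  have h := exceptional_mod (R := Polynomial ℤ) (M := Γ) Polynomial.X (by
    intro x i c h
    have h1 : x ∈ Ker φ := ⟨i, 1 - Polynomial.X * c, by simp, h⟩
    rw [hφ] at h1
    exact h1) A B hA hB δ hδ hδ1
  have hsub : {s : ℕ | ∃ Q : Polynomial ℤ, Q.coeff 0 = 1 ∧
      ((A + B.image fun x => (Polynomial.aeval φ (Polynomial.X ^ s * Q)) x).card : ℝ) <
        ((A.card : ℝ) * B.card) ^ (1 - δ)} ⊆
      {r : ℕ | ∃ u : Polynomial ℤ, IsCoprime u Polynomial.X ∧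
      (Set.ncard {x : Γ | ∃ a ∈ A, ∃ b ∈ B, x = a + (Polynomial.X ^ r * u) • b} : ℝ) <
        ((A.card : ℝ) * B.card) ^ (1 - δ)} := by
    rintro s ⟨Q, hQ, hlt⟩
    refine ⟨Q, coprime_X hQ, ?_⟩
    have e := ncard_image A B (fun x => (Polynomial.aeval φ (Polynomial.X ^ s * Q)) x)
    rw [← e] at hlt
    exact hlt
  refine ⟨h.1.subset hsub, le_trans ?_ h.2⟩
  exact_mod_cast Set.ncard_le_ncard hsub h.1

/-- the `p`-adic valuations of exceptional integral dilates -/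
theorem padic_exceptional {Γ : Type*} [AddCommGroup Γ] [DecidableEq Γ]
    (htf : ∀ (n : ℤ) (x : Γ), n ≠ 0 → n • x = 0 → x = 0) (p : ℕ) (hp : p.Prime)
    (A B : Finset Γ) (hA : A.Nonempty) (hB : B.Nonempty) (δ : ℝ) (hδ : 0 < δ) (hδ1 : δ ≤ 1) :
    {n : ℕ | ∃ d : ℤ, d ≠ 0 ∧ padicValInt p d = n ∧
      ((A + B.image fun x => d • x).card : ℝ) < ((A.card : ℝ) * B.card) ^ (1 - δ)}.Finite ∧
    (Set.ncard {n : ℕ | ∃ d : ℤ, d ≠ 0 ∧ padicValInt p d = n ∧
      ((A + B.image fun x => d • x).card : ℝ) < ((A.card : ℝ) * B.card) ^ (1 - δ)} : ℝ) ≤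
      CE δ * log A.card := by
  have h := int_exceptional htf p hp.two_le A B hA hB δ hδ hδ1
  have hsub : {n : ℕ | ∃ d : ℤ, d ≠ 0 ∧ padicValInt p d = n ∧
      ((A + B.image fun x => d • x).card : ℝ) < ((A.card : ℝ) * B.card) ^ (1 - δ)} ⊆
      {s : ℕ | ∃ u : ℤ, IsCoprime u (p : ℤ) ∧
      ((A + B.image fun x => ((p : ℤ) ^ s * u) • x).card : ℝ) <
        ((A.card : ℝ) * B.card) ^ (1 - δ)} := by
    rintro n ⟨d, hd, rfl, hlt⟩
    obtain ⟨u, hu, e⟩ := int_decomp p hp d hd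
    refine ⟨u, hu, ?_⟩
    rw [← e]
    exact hlt
  refine ⟨h.1.subset hsub, le_trans ?_ h.2⟩
  exact_mod_cast Set.ncard_le_ncard hsub h.1

/-- small sums for integral dilates with many different `p`-adic valuations -/
theorem padic_small {Γ : Type*} [AddCommGroup Γ] [DecidableEq Γ]
    (htf : ∀ (n : ℤ) (x : Γ), n ≠ 0 → n • x = 0 → x = 0) (p : ℕ) (hp : p.Prime)
    (A : Finset Γ) (hA : A.Nonempty) (K : ℝ) (hK : 1 ≤ K) (δ : ℝ) (hδ : 0 < δ) (hδ1 : δ ≤ 1)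
    (G : Finset ℕ) (hG : CS δ * (1 + log K) ≤ G.card)
    (hsum : ∀ n ∈ G, ∃ d : ℤ, d ≠ 0 ∧ padicValInt p d = n ∧
      ((A + A.image fun x => d • x).card : ℝ) ≤ K * A.card) :
    (A.card : ℝ) ≤ K ^ (1 + δ) := by
  obtain ⟨A', _, h1, h2⟩ := int_small p hp.two_le A hA K hK δ hδ hδ1 G hG (by
    intro n hn
    obtain ⟨d, hd, rfl, hle⟩ := hsum n hn
    obtain ⟨u, hu, e⟩ := int_decomp p hp d hd
    refine ⟨u, hu, ?_⟩
    rw [← e]
    exact hle)
  refine card_le_of_diff A A' K hK δ h1 fun x hx y hy => ?_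
  obtain ⟨n, hn, h⟩ := h2 x hx y hy
  exact htf n _ hn h

end Pool.Agent.U234.LD
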