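import Pool.Agent.U234.LD.Val

/-! Powers of one number, small sums, and the example. -/

set_option autoImplicit false

open Finset Real
open scoped Pointwise

namespace Pool.Agent.U234.LD

open Polynomial in
theorem not_zero_of_not_integral {F : Type*} [Field F] (l : F) (hl : l ≠ 0)
    (hint : ¬ IsIntegral ℤ l⁻¹) (P : ℤ[X]) (hP : P.coeff 0 = 1) : aeval l P ≠ 0 := by
  intro h
  apply hint
  refine ⟨P.reverse, ?_, ?_⟩
  · rw [Monic, reverse_leadingCoeff, trailingCoeff]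
    have : P.natTrailingDegree = 0 := by
      rw [natTrailingDegree_eq_zero]
      right
      rw [hP]
      exact one_ne_zero
    rw [this, hP]
  · have : Invertible l := invertibleOfNonzero hl
    have h1 := (eval₂_reverse_eq_zero_iff (algebraMap ℤ F) l P).2 h
    rwa [invOf_eq_inv] at h1

theorem pow_one {F : Type*} [Field F] (l : F) (hl : l ≠ 0) (hint : ¬ IsIntegral ℤ l⁻¹)
    {V : Type*} [AddCommGroup V] [Module F V] [DecidableEq V] (A B : Finset V) (hA : A.Nonempty)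
    (hB : B.Nonempty) (δ : ℝ) (hδ : 0 < δ) (hδ1 : δ ≤ 1) :
    {j : ℤ | ((A + B.image fun x => (l ^ j) • x).card : ℝ) <
        ((A.card : ℝ) * B.card) ^ (1 - δ)}.Finite ∧
    (Set.ncard {j : ℤ | ((A + B.image fun x => (l ^ j) • x).card : ℝ) <
        ((A.card : ℝ) * B.card) ^ (1 - δ)} : ℝ) ≤ CE δ * log (A.card * B.card) := by
  let _ : Module (Polynomial ℤ) V := Module.compHom V
    ((Polynomial.aeval l).toRingHom : Polynomial ℤ →+* F)
  have hsm : ∀ (c : Polynomial ℤ) (x : V), c • x = (Polynomial.aeval l c) • x := fun _ _ => rfl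
  have hker : ∀ (x : V) (i : ℕ) (c : Polynomial ℤ),
      (Polynomial.X ^ i * (1 - Polynomial.X * c)) • x = 0 → x = 0 := by
    intro x i c h
    rw [hsm] at h
    refine (smul_eq_zero.1 h).resolve_left ?_
    rw [map_mul, map_pow, Polynomial.aeval_X]
    exact mul_ne_zero (pow_ne_zero _ hl) (not_zero_of_not_integral l hl hint _ (by simp))
  have h1 := exceptional_mod (R := Polynomial ℤ) (M := V) Polynomial.X hker A B hA hB δ hδ hδ1
  have h2 := exceptional_mod (R := Polynomial ℤ) (M := V) Polynomial.X hker B A hB hA δ hδ hδ1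
  set E₁ := {r : ℕ | ∃ u : Polynomial ℤ, IsCoprime u Polynomial.X ∧
      (Set.ncard {x : V | ∃ a ∈ A, ∃ b ∈ B, x = a + (Polynomial.X ^ r * u) • b} : ℝ) <
        ((A.card : ℝ) * B.card) ^ (1 - δ)} with hE₁
  set E₂ := {r : ℕ | ∃ u : Polynomial ℤ, IsCoprime u Polynomial.X ∧
      (Set.ncard {x : V | ∃ a ∈ B, ∃ b ∈ A, x = a + (Polynomial.X ^ r * u) • b} : ℝ) <
        ((B.card : ℝ) * A.card) ^ (1 - δ)} with hE₂
  have hev : ∀ n : ℕ, Polynomial.aeval l (Polynomial.X ^ n * 1 : Polynomial ℤ) = l ^ n := by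
    intro n; simp
  have hsub : {j : ℤ | ((A + B.image fun x => (l ^ j) • x).card : ℝ) <
        ((A.card : ℝ) * B.card) ^ (1 - δ)} ⊆
      (fun n : ℕ => (n : ℤ)) '' E₁ ∪ (fun n : ℕ => -(n : ℤ)) '' E₂ := by
    rintro j hlt
    rw [Set.mem_ofPred_eq] at hlt
    rcases le_total 0 j with h | h
    · left
      obtain ⟨n, rfl⟩ := Int.eq_ofNat_of_zero_le h
      refine ⟨n, ⟨1, isCoprime_one_left, ?_⟩, rfl⟩
      have e := ncard_image A B (fun x => (l ^ (n : ℤ)) • x)
      rw [← e] at hlt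
      show (Set.ncard {x : V | ∃ a ∈ A, ∃ b ∈ B,
        x = a + (Polynomial.aeval l (Polynomial.X ^ n * 1 : Polynomial ℤ)) • b} : ℝ) < _
      rw [hev, ← zpow_natCast]
      exact hlt
    · right
      obtain ⟨n, hn⟩ := Int.eq_ofNat_of_zero_le (show 0 ≤ -j by omega)
      have hj : j = -(n : ℤ) := by omega
      refine ⟨n, ⟨1, isCoprime_one_left, ?_⟩, hj.symm⟩
      rw [sum_inv A B _ (zpow_ne_zero _ hl)] at hlt
      have e := ncard_image B A (fun x => (l ^ j)⁻¹ • x)
      rw [← e, mul_comm (A.card : ℝ), hj, ← zpow_neg, neg_neg] at hlt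
      show (Set.ncard {x : V | ∃ a ∈ B, ∃ b ∈ A,
        x = a + (Polynomial.aeval l (Polynomial.X ^ n * 1 : Polynomial ℤ)) • b} : ℝ) < _
      rw [hev, ← zpow_natCast]
      exact hlt
  have hfin : ((fun n : ℕ => (n : ℤ)) '' E₁ ∪ (fun n : ℕ => -(n : ℤ)) '' E₂).Finite :=
    (h1.1.image _).union (h2.1.image _)
  refine ⟨hfin.subset hsub, ?_⟩
  have hcard := (Set.ncard_le_ncard hsub hfin).trans ((Set.ncard_union_le _ _).trans
    (add_le_add (Set.ncard_image_le h1.1) (Set.ncard_image_le h2.1)))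
  have hcard' : (Set.ncard {j : ℤ | ((A + B.image fun x => (l ^ j) • x).card : ℝ) <
        ((A.card : ℝ) * B.card) ^ (1 - δ)} : ℝ) ≤ E₁.ncard + E₂.ncard := by exact_mod_cast hcard
  have hAp : (A.card : ℝ) ≠ 0 := by exact_mod_cast hA.card_pos.ne'
  have hBp : (B.card : ℝ) ≠ 0 := by exact_mod_cast hB.card_pos.ne'
  rw [log_mul hAp hBp]
  have h3 := h1.2
  have h4 := h2.2
  linarith

/-- **Powers of one number.** -/
theorem pow_exceptional {F : Type*} [Field F] (l : F) (hl : l ≠ 0)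
    (hint : ¬ (IsIntegral ℤ l ∧ IsIntegral ℤ l⁻¹))
    {V : Type*} [AddCommGroup V] [Module F V] [DecidableEq V] (A B : Finset V) (hA : A.Nonempty)
    (hB : B.Nonempty) (δ : ℝ) (hδ : 0 < δ) (hδ1 : δ ≤ 1) :
    {j : ℤ | ((A + B.image fun x => (l ^ j) • x).card : ℝ) <
        ((A.card : ℝ) * B.card) ^ (1 - δ)}.Finite ∧
    (Set.ncard {j : ℤ | ((A + B.image fun x => (l ^ j) • x).card : ℝ) <
        ((A.card : ℝ) * B.card) ^ (1 - δ)} : ℝ) ≤ CE δ * log (A.card * B.card) := by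
  by_cases h : IsIntegral ℤ l⁻¹
  · have h' : ¬ IsIntegral ℤ (l⁻¹)⁻¹ := by
      rw [inv_inv]
      exact fun h2 => hint ⟨h2, h⟩
    have h1 := pow_one l⁻¹ (inv_ne_zero hl) h' A B hA hB δ hδ hδ1
    have e : {j : ℤ | ((A + B.image fun x => (l ^ j) • x).card : ℝ) <
        ((A.card : ℝ) * B.card) ^ (1 - δ)} = (fun j : ℤ => -j) ''
        {j : ℤ | ((A + B.image fun x => (l⁻¹ ^ j) • x).card : ℝ) <
        ((A.card : ℝ) * B.card) ^ (1 - δ)} := by
      ext j
      simp only [Set.mem_image, Set.mem_ofPred_eq]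
      constructor
      · intro hj
        refine ⟨-j, ?_, neg_neg j⟩
        rw [inv_zpow, zpow_neg, inv_inv]
        exact hj
      · rintro ⟨j, hj, rfl⟩
        rw [zpow_neg, ← inv_zpow]
        exact hj
    rw [e]
    refine ⟨h1.1.image _, le_trans ?_ h1.2⟩
    exact_mod_cast Set.ncard_image_le h1.1
  · exact pow_one l hl h A B hA hB δ hδ hδ1

/-- large sets have a set of absolute values which is half as large -/
theorem half {G : Type*} [DecidableEq G] (S : Finset G) (f : G → ℕ) (g h : ℕ → G)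
    (hf : ∀ s ∈ S, s = g (f s) ∨ s = h (f s)) (x : ℝ) (hS : 2 * x ≤ S.card) :
    x ≤ (S.image f).card := by
  have h1 : S.card ≤ 2 * (S.image f).card := by
    refine Finset.card_le_mul_card_image S 2 ?_
    intro n _
    refine (Finset.card_le_card (t := {g n, h n}) ?_).trans card_le_two
    intro s hs
    rw [mem_filter] at hs
    rw [mem_insert, mem_singleton, ← hs.2]
    exact hf s hs.1
  have h2 : (S.card : ℝ) ≤ 2 * (S.image f).card := by exact_mod_cast h1
  linarith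

/-- a set without differences has at most one element -/
theorem card_le_of_diff {Γ : Type*} [AddCommGroup Γ] (A A' : Finset Γ) (K : ℝ) (hK : 1 ≤ K) (δ : ℝ)
    (hle : (A.card : ℝ) ≤ K ^ (1 + δ) * A'.card) (h : ∀ x ∈ A', ∀ y ∈ A', x - y = 0) :
    (A.card : ℝ) ≤ K ^ (1 + δ) := by
  have h1 : A'.card ≤ 1 := Finset.card_le_one.2 fun x hx y hy => sub_eq_zero.1 (h x hx y hy)
  have h2 : (A'.card : ℝ) ≤ 1 := by exact_mod_cast h1
  have h3 : 0 ≤ K ^ (1 + δ) := rpow_nonneg (by linarith) _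
  nlinarith

/-- **Small sums for many valuations.** -/
theorem small_val {F : Type*} [Field F] {Γ₀ : Type*} [LinearOrderedCommGroupWithZero Γ₀]
    (v : Valuation F Γ₀) [v.IsRankOneDiscrete] {V : Type*} [AddCommGroup V]
    [Module F V] [DecidableEq V] (A : Finset V) (hA : A.Nonempty) (K : ℝ) (hK : 1 ≤ K)
    (δ : ℝ) (hδ : 0 < δ) (hδ1 : δ ≤ 1) (G : Finset Γ₀) (hG : 2 * (CS δ * (1 + log K)) ≤ G.card)
    (hsum : ∀ g ∈ G, ∃ c : F, c ≠ 0 ∧ v c = g ∧
      ((A + A.image fun x => c • x).card : ℝ) ≤ K * A.card) :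
    (A.card : ℝ) ≤ K ^ (1 + δ) := by
  classical
  obtain ⟨hN, p, hp0, hp1, hp2⟩ := exists_unif v
  let _ : Module v.valuationSubring V := Module.compHom V v.valuationSubring.subtype
  have hsm : ∀ (c : v.valuationSubring) (x : V), c • x = (c : F) • x := fun _ _ => rfl
  have hl : ∀ (x : V) (i : ℕ) (c : v.valuationSubring), (p ^ i * (1 - p * c)) • x = 0 → x = 0 := by
    intro x i c h
    rw [hsm] at h
    refine (smul_eq_zero.1 h).resolve_left ?_
    have : (p ^ i * (1 - p * c) : v.valuationSubring) ≠ 0 :=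
      mul_ne_zero (pow_ne_zero _ fun h => hp0 (congrArg Subtype.val h)) (hp1 c)
    exact fun h => this (Subtype.ext h)
  have key : ∀ g ∈ G, ∃ n : ℕ, (g = v (p : F) ^ n ∨ g = (v (p : F) ^ n)⁻¹) ∧
      ∃ u : v.valuationSubring, IsCoprime u p ∧
      (Set.ncard {x : V | ∃ a ∈ A, ∃ b ∈ A, x = a + (p ^ n * u) • b} : ℝ) ≤ K * A.card := by
    intro g hg
    obtain ⟨c, hc, rfl, hle⟩ := hsum g hg
    rcases le_total (v c) 1 with h | h
    · obtain ⟨n, u, hu, hcn, hvc⟩ := hp2 c hc h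
      obtain ⟨b, hb⟩ := hu.exists_left_inv
      refine ⟨n, Or.inl hvc, u, ⟨b, 0, by rw [hb, zero_mul, add_zero]⟩, ?_⟩
      have e := ncard_image A A (fun x => c • x)
      rw [← e] at hle
      have e2 : ((p ^ n * u : v.valuationSubring) : F) = c := by push_cast; exact hcn.symm
      show (Set.ncard {x : V | ∃ a ∈ A, ∃ b ∈ A, x = a + ((p ^ n * u : v.valuationSubring) : F) • b}
        : ℝ) ≤ _
      rw [e2]
      exact hle
    · have hc' : c⁻¹ ≠ 0 := inv_ne_zero hc
      have h' : v c⁻¹ ≤ 1 := by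
        rw [map_inv₀]
        exact inv_le_one_of_one_le₀ h
      obtain ⟨n, u, hu, hcn, hvc⟩ := hp2 c⁻¹ hc' h'
      obtain ⟨b, hb⟩ := hu.exists_left_inv
      refine ⟨n, Or.inr ?_, u, ⟨b, 0, by rw [hb, zero_mul, add_zero]⟩, ?_⟩
      · rw [← hvc, map_inv₀, inv_inv]
      · rw [sum_inv A A c hc] at hle
        have e := ncard_image A A (fun x => c⁻¹ • x)
        rw [← e] at hle
        have e2 : ((p ^ n * u : v.valuationSubring) : F) = c⁻¹ := by push_cast; exact hcn.symm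
        show (Set.ncard {x : V | ∃ a ∈ A, ∃ b ∈ A,
          x = a + ((p ^ n * u : v.valuationSubring) : F) • b} : ℝ) ≤ _
        rw [e2]
        exact hle
  choose! f hf1 hf2 using key
  obtain ⟨A', _, h1, h2⟩ := small_mod (R := v.valuationSubring) (M := V) p A hA K hK δ hδ hδ1
    (G.image f) (half G f (fun n => v (p : F) ^ n) (fun n => (v (p : F) ^ n)⁻¹) hf1 _ hG) (by
      intro r hr
      obtain ⟨g, hg, rfl⟩ := mem_image.1 hr
      exact hf2 g hg)
  refine card_le_of_diff A A' K hK δ h1 fun x hx y hy => ?_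
  obtain ⟨i, c, hic⟩ := h2 x hx y hy
  exact hl _ _ _ hic

theorem small_pow_one {F : Type*} [Field F] (l : F) (hl : l ≠ 0) (hint : ¬ IsIntegral ℤ l⁻¹)
    {V : Type*} [AddCommGroup V] [Module F V] [DecidableEq V] (A : Finset V) (hA : A.Nonempty)
    (K : ℝ) (hK : 1 ≤ K) (δ : ℝ) (hδ : 0 < δ) (hδ1 : δ ≤ 1) (J : Finset ℤ)
    (hJ : 2 * (CS δ * (1 + log K)) ≤ J.card)
    (hsum : ∀ j ∈ J, ((A + A.image fun x => (l ^ j) • x).card : ℝ) ≤ K * A.card) :
    (A.card : ℝ) ≤ K ^ (1 + δ) := by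
  let _ : Module (Polynomial ℤ) V := Module.compHom V
    ((Polynomial.aeval l).toRingHom : Polynomial ℤ →+* F)
  have hsm : ∀ (c : Polynomial ℤ) (x : V), c • x = (Polynomial.aeval l c) • x := fun _ _ => rfl
  have hker : ∀ (x : V) (i : ℕ) (c : Polynomial ℤ),
      (Polynomial.X ^ i * (1 - Polynomial.X * c)) • x = 0 → x = 0 := by
    intro x i c h
    rw [hsm] at h
    refine (smul_eq_zero.1 h).resolve_left ?_
    rw [map_mul, map_pow, Polynomial.aeval_X]
    exact mul_ne_zero (pow_ne_zero _ hl) (not_zero_of_not_integral l hl hint _ (by simp))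
  have hev : ∀ n : ℕ, Polynomial.aeval l (Polynomial.X ^ n * 1 : Polynomial ℤ) = l ^ n := by
    intro n; simp
  obtain ⟨A', _, h1, h2⟩ := small_mod (R := Polynomial ℤ) (M := V) Polynomial.X A hA K hK δ hδ hδ1
    (J.image Int.natAbs) (half J Int.natAbs (fun n => (n : ℤ)) (fun n => -(n : ℤ))
      (fun s _ => Int.natAbs_eq s) _ hJ) (by
      intro r hr
      obtain ⟨j, hj, rfl⟩ := mem_image.1 hr
      have hle := hsum j hj
      refine ⟨1, isCoprime_one_left, ?_⟩
      show (Set.ncard {x : V | ∃ a ∈ A, ∃ b ∈ A,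
        x = a + (Polynomial.aeval l (Polynomial.X ^ j.natAbs * 1 : Polynomial ℤ)) • b} : ℝ) ≤ _
      rw [hev, ← zpow_natCast]
      rcases Int.natAbs_eq j with h | h
      · have e := ncard_image A A (fun x => (l ^ j) • x)
        rw [← e] at hle
        rw [← h]
        exact hle
      · rw [sum_inv A A _ (zpow_ne_zero _ hl)] at hle
        have e := ncard_image A A (fun x => (l ^ j)⁻¹ • x)
        rw [← e, ← zpow_neg] at hle
        have e2 : ((j.natAbs : ℕ) : ℤ) = -j := by omega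
        rw [e2]
        exact hle)
  refine card_le_of_diff A A' K hK δ h1 fun x hx y hy => ?_
  obtain ⟨i, c, hic⟩ := h2 x hx y hy
  exact hker _ _ _ hic

theorem small_pow {F : Type*} [Field F] (l : F) (hl : l ≠ 0)
    (hint : ¬ (IsIntegral ℤ l ∧ IsIntegral ℤ l⁻¹))
    {V : Type*} [AddCommGroup V] [Module F V] [DecidableEq V] (A : Finset V) (hA : A.Nonempty)
    (K : ℝ) (hK : 1 ≤ K) (δ : ℝ) (hδ : 0 < δ) (hδ1 : δ ≤ 1) (J : Finset ℤ)
    (hJ : 2 * (CS δ * (1 + log K)) ≤ J.card)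
    (hsum : ∀ j ∈ J, ((A + A.image fun x => (l ^ j) • x).card : ℝ) ≤ K * A.card) :
    (A.card : ℝ) ≤ K ^ (1 + δ) := by
  by_cases h : IsIntegral ℤ l⁻¹
  · have h' : ¬ IsIntegral ℤ (l⁻¹)⁻¹ := by
      rw [inv_inv]
      exact fun h2 => hint ⟨h2, h⟩
    refine small_pow_one l⁻¹ (inv_ne_zero hl) h' A hA K hK δ hδ hδ1 (J.image fun j => -j) ?_ ?_
    · rw [Finset.card_image_of_injective _ neg_injective]
      exact hJ
    · intro j hj
      obtain ⟨i, hi, rfl⟩ := mem_image.1 hj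
      rw [inv_zpow, zpow_neg, inv_inv]
      exact hsum i hi
  · exact small_pow_one l hl h A hA K hK δ hδ hδ1 J hJ hsum

/-- the example: the interval `{0, ..., 2 ^ n - 1}` -/
theorem example_interval (n s : ℕ) :
    let A : Finset ℤ := (Finset.range (2 ^ n)).image fun i : ℕ => (i : ℤ)
    A.card = 2 ^ n ∧ (A + A.image fun x => ((2 : ℤ) ^ s) • x).card ≤ 2 ^ (s + 1) * A.card := by
  intro A
  have hc : A.card = 2 ^ n := by
    rw [Finset.card_image_of_injective _ Nat.cast_injective, Finset.card_range]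
  refine ⟨hc, ?_⟩
  rw [hc]
  have hsub : (A + A.image fun x => ((2 : ℤ) ^ s) • x) ⊆
      (Finset.range (2 ^ (s + 1) * 2 ^ n)).image fun i : ℕ => (i : ℤ) := by
    intro x hx
    obtain ⟨a, ha, b, hb, rfl⟩ := Finset.mem_add.1 hx
    obtain ⟨i, hi, rfl⟩ := mem_image.1 ha
    obtain ⟨_, hb', rfl⟩ := mem_image.1 hb
    obtain ⟨j, hj, rfl⟩ := mem_image.1 hb'
    rw [Finset.mem_range] at hi hj
    refine mem_image.2 ⟨i + 2 ^ s * j, ?_, by push_cast; rw [smul_eq_mul]⟩
    rw [Finset.mem_range]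
    have h1 : 2 ^ s * j + 2 ^ s ≤ 2 ^ s * 2 ^ n := by nlinarith [Nat.one_le_two_pow (n := s)]
    have h2 : i + 1 ≤ 2 ^ s * 2 ^ n := by nlinarith [Nat.one_le_two_pow (n := s)]
    have h3 : 0 < 2 ^ s := by positivity
    calc i + 2 ^ s * j < 2 ^ s * 2 ^ n + 2 ^ s * 2 ^ n := by omega
      _ = 2 ^ (s + 1) * 2 ^ n := by ring
  refine (Finset.card_le_card hsub).trans (Finset.card_image_le.trans ?_)
  rw [Finset.card_range]

end Pool.Agent.U234.LD
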