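import Pool.Agent.U234.LD.Two

/-! Multiples by `λ ^ s * u`, where `u` is invertible modulo `λ`, in modules over Noetherian rings. -/

set_option autoImplicit false

open Finset Real
open scoped Pointwise

namespace Pool.Agent.U234.LD

section filt

variable {R M : Type*} [CommRing R] [AddCommGroup M] [Module R M]

/-- the elements which are divisible by `l ^ s` up to elements killed by a power of `l` -/
def Fl (M : Type*) [AddCommGroup M] [Module R M] (l : R) (s : ℕ) : Submodule R M where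
  carrier := {x | ∃ (i : ℕ) (y : M), l ^ i • x = l ^ (i + s) • y}
  zero_mem' := ⟨0, 0, by simp⟩
  add_mem' := by
    rintro x x' ⟨i, y, h⟩ ⟨i', y', h'⟩
    refine ⟨i + i', y + y', ?_⟩
    rw [smul_add, smul_add]
    congr 1
    · rw [add_comm i i', pow_add, mul_smul, h, ← mul_smul, ← pow_add, add_assoc]
    · rw [pow_add, mul_smul, h', ← mul_smul, ← pow_add, add_assoc]
  smul_mem' := by
    rintro c x ⟨i, y, h⟩
    exact ⟨i, c • y, by rw [smul_comm, h, smul_comm]⟩

theorem mem_Fl {l : R} {s : ℕ} {x : M} :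
    x ∈ Fl M l s ↔ ∃ (i : ℕ) (y : M), l ^ i • x = l ^ (i + s) • y := Iff.rfl

theorem Fl_zero (l : R) : Fl M l 0 = ⊤ := by
  rw [eq_top_iff]
  intro x _
  exact ⟨0, x, rfl⟩

theorem Fl_anti (l : R) : Antitone (Fl M l) := by
  intro s t hst x hx
  obtain ⟨i, y, h⟩ := hx
  refine ⟨i, l ^ (t - s) • y, ?_⟩
  rw [h, ← mul_smul, ← pow_add]
  congr 2
  omega

theorem Fl_shift (l u : R) (hu : IsCoprime u l) (r s : ℕ) (z : M) :
    (l ^ r * u) • z ∈ Fl M l s ↔ z ∈ Fl M l (s - r) := by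
  rcases le_total r s with hrs | hrs
  · constructor
    · rintro ⟨i, y, h⟩
      have h1 : u • z ∈ Fl M l (s - r) := by
        refine ⟨i + r, y, ?_⟩
        rw [← mul_smul, pow_add, mul_assoc, mul_smul, h]
        congr 2
        omega
      obtain ⟨a, b, hab⟩ := (hu.pow_right : IsCoprime u (l ^ (s - r)))
      have h2 : z = a • (u • z) + b • (l ^ (s - r) • z) := by
        rw [← mul_smul, ← mul_smul, ← add_smul, hab, one_smul]
      rw [h2]
      refine Submodule.add_mem _ (Submodule.smul_mem _ _ h1) (Submodule.smul_mem _ _ ?_)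
      exact ⟨0, z, by rw [pow_zero, one_smul, zero_add]⟩
    · rintro ⟨i, y, h⟩
      refine ⟨i, u • y, ?_⟩
      have e : l ^ i • (l ^ r * u) • z = (l ^ r * u) • l ^ i • z := smul_comm _ _ _
      rw [e, h, ← mul_smul, ← mul_smul]
      congr 1
      have : i + s = r + (i + (s - r)) := by omega
      rw [this, pow_add l r]
      ring
  · rw [Nat.sub_eq_zero_of_le hrs, Fl_zero]
    refine ⟨fun _ => Submodule.mem_top, fun _ => ⟨0, (l ^ (r - s) * u) • z, ?_⟩⟩
    rw [pow_zero, one_smul, zero_add, ← mul_smul, ← mul_assoc, ← pow_add]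
    congr 3
    omega

/-- Krull's intersection theorem -/
theorem Fl_inter [IsNoetherianRing R] [Module.Finite R M] (l : R) (x : M)
    (hx : ∀ s, x ∈ Fl M l s) : ∃ (i : ℕ) (c : R), (l ^ i * (1 - l * c)) • x = 0 := by
  -- the elements killed by a power of `l`
  let N₀ : Submodule R M :=
    { carrier := {x | ∃ i : ℕ, l ^ i • x = 0}
      zero_mem' := ⟨0, by simp⟩
      add_mem' := by
        rintro a b ⟨i, hi⟩ ⟨j, hj⟩
        refine ⟨i + j, ?_⟩
        have h1 : l ^ (i + j) • a = 0 := by rw [add_comm, pow_add, mul_smul, hi, smul_zero]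
        have h2 : l ^ (i + j) • b = 0 := by rw [pow_add, mul_smul, hj, smul_zero]
        rw [smul_add, h1, h2, add_zero]
      smul_mem' := by
        rintro c a ⟨i, hi⟩
        exact ⟨i, by rw [smul_comm, hi, smul_zero]⟩ }
  have hN : ∀ y : M, y ∈ N₀ ↔ ∃ i : ℕ, l ^ i • y = 0 := fun _ => Iff.rfl
  have h1 : N₀.mkQ x ∈ (⨅ i : ℕ, Ideal.span {l} ^ i • ⊤ : Submodule R (M ⧸ N₀)) := by
    rw [Submodule.mem_iInf]
    intro s
    obtain ⟨i, y, h⟩ := hx s
    have h2 : N₀.mkQ x = l ^ s • N₀.mkQ y := by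
      rw [← map_smul, ← sub_eq_zero, ← map_sub, Submodule.mkQ_apply,
        Submodule.Quotient.mk_eq_zero, hN]
      exact ⟨i, by rw [smul_sub, h, ← mul_smul, ← pow_add, sub_self]⟩
    rw [h2]
    exact Submodule.smul_mem_smul (Ideal.pow_mem_pow (Ideal.mem_span_singleton_self l) s)
      Submodule.mem_top
  obtain ⟨⟨r, hr⟩, hrx⟩ := (Ideal.mem_iInf_smul_pow_eq_bot_iff (Ideal.span {l}) (N₀.mkQ x)).1 h1
  obtain ⟨c, rfl⟩ := Ideal.mem_span_singleton'.1 hr
  have h3 : (1 - l * c) • x ∈ N₀ := by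
    rw [← Submodule.Quotient.mk_eq_zero, ← Submodule.mkQ_apply, map_smul, sub_smul, one_smul,
      mul_comm, sub_eq_zero]
    exact hrx.symm
  obtain ⟨i, hi⟩ := (hN _).1 h3
  exact ⟨i, c, by rw [mul_smul, hi]⟩

/-- multiplication by an element of the ring -/
def mulBy (M : Type*) [AddCommGroup M] [Module R M] (c : R) : M →+ M :=
  DistribSMul.toAddMonoidHom M c

theorem mulBy_apply (c : R) (z : M) : mulBy M c z = c • z := rfl

end filt

variable {R : Type*} {M : Type*} [CommRing R] [AddCommGroup M] [Module R M]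

/-- the elements of `A` as elements of the submodule `N` -/
noncomputable def lift (N : Submodule R M) (A : Finset M) : Finset N := by
  classical exact A.subtype (· ∈ N)

theorem mem_lift {N : Submodule R M} {A : Finset M} {x : N} : x ∈ lift N A ↔ (x : M) ∈ A := by
  classical
  unfold lift
  exact Finset.mem_subtype

theorem card_lift (N : Submodule R M) (A : Finset M) (h : ∀ a ∈ A, a ∈ N) :
    (lift N A).card = A.card := by
  classical
  unfold lift
  rw [Finset.card_subtype, Finset.filter_true_of_mem h]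

theorem ncard_lift (N : Submodule R M) (A B : Finset M) (hA : ∀ a ∈ A, a ∈ N)
    (hB : ∀ b ∈ B, b ∈ N) (c : R) :
    Set.ncard {x : N | ∃ a ∈ lift N A, ∃ b ∈ lift N B, x = a + mulBy N c b} =
      Set.ncard {x : M | ∃ a ∈ A, ∃ b ∈ B, x = a + c • b} := by
  rw [← Set.ncard_image_of_injective _ (Subtype.val_injective (p := fun x => x ∈ N))]
  congr 1
  ext x
  simp only [Set.mem_image, Set.mem_ofPred_eq]
  constructor
  · rintro ⟨_, ⟨a, ha, b, hb, rfl⟩, rfl⟩
    exact ⟨a, mem_lift.1 ha, b, mem_lift.1 hb, rfl⟩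
  · rintro ⟨a, ha, b, hb, rfl⟩
    exact ⟨⟨a, hA a ha⟩ + c • ⟨b, hB b hb⟩, ⟨⟨a, hA a ha⟩, mem_lift.2 ha, ⟨b, hB b hb⟩,
      mem_lift.2 hb, rfl⟩, rfl⟩

/-- **The exceptional multiples, for modules.** -/
theorem exceptional_mod [IsNoetherianRing R] (l : R)
    (hl : ∀ (x : M) (i : ℕ) (c : R), (l ^ i * (1 - l * c)) • x = 0 → x = 0)
    (A B : Finset M) (hA : A.Nonempty) (hB : B.Nonempty) (δ : ℝ) (hδ : 0 < δ) (hδ1 : δ ≤ 1) :
    {r : ℕ | ∃ u : R, IsCoprime u l ∧
      (Set.ncard {x : M | ∃ a ∈ A, ∃ b ∈ B, x = a + (l ^ r * u) • b} : ℝ) <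
        ((A.card : ℝ) * B.card) ^ (1 - δ)}.Finite ∧
    (Set.ncard {r : ℕ | ∃ u : R, IsCoprime u l ∧
      (Set.ncard {x : M | ∃ a ∈ A, ∃ b ∈ B, x = a + (l ^ r * u) • b} : ℝ) <
        ((A.card : ℝ) * B.card) ^ (1 - δ)} : ℝ) ≤ CE δ * log A.card := by
  classical
  set N : Submodule R M := Submodule.span R ((A ∪ B : Finset M) : Set M) with hN
  have hAN : ∀ a ∈ A, a ∈ N := fun a ha => Submodule.subset_span (by
    rw [mem_coe]; exact mem_union_left _ ha)
  have hBN : ∀ b ∈ B, b ∈ N := fun b hb => Submodule.subset_span (by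
    rw [mem_coe]; exact mem_union_right _ hb)
  have : Module.Finite R N := Module.Finite.span_finset R (A ∪ B)
  have cA := card_lift N A hAN
  have cB := card_lift N B hBN
  have nA : (lift N A).Nonempty := by
    rw [← card_pos, cA]; exact card_pos.2 hA
  have nB : (lift N B).Nonempty := by
    rw [← card_pos, cB]; exact card_pos.2 hB
  have h := exceptional (fun s => (Fl N l s).toAddSubgroup) (by
      rw [Fl_zero]; rfl) (fun s t hst => Fl_anti (M := N) l hst) (by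
      intro x hx
      obtain ⟨i, c, hic⟩ := Fl_inter l x hx
      have h1 : (l ^ i * (1 - l * c)) • (x : M) = 0 := by
        have := congrArg (Subtype.val) hic
        simpa using this
      exact Subtype.ext (hl _ _ _ h1)) (lift N A) (lift N B) nA nB δ hδ hδ1
  rw [cA, cB] at h
  have hsub : {r : ℕ | ∃ u : R, IsCoprime u l ∧
      (Set.ncard {x : M | ∃ a ∈ A, ∃ b ∈ B, x = a + (l ^ r * u) • b} : ℝ) <
        ((A.card : ℝ) * B.card) ^ (1 - δ)} ⊆
      {r : ℕ | ∃ ψ : N →+ N, (∀ s z, ψ z ∈ (Fl N l s).toAddSubgroup ↔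
        z ∈ (Fl N l (s - r)).toAddSubgroup) ∧
      (Set.ncard {x : N | ∃ a ∈ lift N A, ∃ b ∈ lift N B, x = a + ψ b} : ℝ) <
        ((A.card : ℝ) * B.card) ^ (1 - δ)} := by
    rintro r ⟨u, hu, hlt⟩
    refine ⟨mulBy N (l ^ r * u), fun s z => Fl_shift l u hu r s z, ?_⟩
    rw [ncard_lift N A B hAN hBN]
    exact hlt
  refine ⟨h.1.subset hsub, le_trans ?_ h.2⟩
  exact_mod_cast Set.ncard_le_ncard hsub h.1

/-- **Sets with small sums, for modules.** -/
theorem small_mod [IsNoetherianRing R] (l : R)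
    (A : Finset M) (hA : A.Nonempty) (κ : ℝ) (hκ : 1 ≤ κ) (δ : ℝ) (hδ : 0 < δ) (hδ1 : δ ≤ 1)
    (S : Finset ℕ) (hS : CS δ * (1 + log κ) ≤ S.card)
    (hsum : ∀ r ∈ S, ∃ u : R, IsCoprime u l ∧
      (Set.ncard {x : M | ∃ a ∈ A, ∃ b ∈ A, x = a + (l ^ r * u) • b} : ℝ) ≤ κ * A.card) :
    ∃ A' ⊆ A, (A.card : ℝ) ≤ κ ^ (1 + δ) * A'.card ∧
      ∀ x ∈ A', ∀ y ∈ A', ∃ (i : ℕ) (c : R), (l ^ i * (1 - l * c)) • (x - y) = 0 := by
  classical
  set N : Submodule R M := Submodule.span R (A : Set M) with hN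
  have hAN : ∀ a ∈ A, a ∈ N := fun a ha => Submodule.subset_span (by
    rw [mem_coe]; exact ha)
  have : Module.Finite R N := Module.Finite.span_finset R A
  have cA := card_lift N A hAN
  have nA : (lift N A).Nonempty := by
    rw [← card_pos, cA]; exact card_pos.2 hA
  obtain ⟨A', hA', h1, h2⟩ := small (fun s => (Fl N l s).toAddSubgroup) (by
      rw [Fl_zero]; rfl) (fun s t hst => Fl_anti (M := N) l hst) (lift N A) nA κ hκ δ hδ hδ1 S hS
      (by
        intro r hr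
        obtain ⟨u, hu, hle⟩ := hsum r hr
        refine ⟨mulBy N (l ^ r * u), fun s z => Fl_shift l u hu r s z, ?_⟩
        rw [ncard_lift N A A hAN hAN, cA]
        exact hle)
  refine ⟨A'.map ⟨Subtype.val, Subtype.val_injective⟩, ?_, ?_, ?_⟩
  · intro x hx
    obtain ⟨y, hy, rfl⟩ := mem_map.1 hx
    exact mem_lift.1 (hA' hy)
  · rw [card_map, ← cA]
    exact h1
  · intro x' hx' y' hy'
    obtain ⟨x, hx, rfl⟩ := mem_map.1 hx'
    obtain ⟨y, hy, rfl⟩ := mem_map.1 hy'
    obtain ⟨i, c, hic⟩ := Fl_inter l (x - y) (h2 x hx y hy)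
    refine ⟨i, c, ?_⟩
    have := congrArg (Subtype.val) hic
    simpa using this

/-- Ruzsa's covering lemma for a subset in a coset -/
theorem covering {Γ : Type*} [AddCommGroup Γ] (A A' : Finset Γ) (hA : A.Nonempty) (hA' : A' ⊆ A)
    (κ L : ℝ) (hκ : 1 ≤ κ)
    (hsum : (Set.ncard {x : Γ | ∃ a ∈ A, ∃ b ∈ A, x = a + b} : ℝ) ≤ κ * A.card)
    (hle : (A.card : ℝ) ≤ L * A'.card) (U : Set Γ) (hU : ∀ x ∈ A', ∀ y ∈ A', x - y ∈ U) :
    ∃ T ⊆ A, (T.card : ℝ) ≤ κ * L ∧ ∀ a ∈ A, ∃ t ∈ T, a - t ∈ U := by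
  classical
  have np : (0 : ℝ) < A.card := by exact_mod_cast card_pos.2 hA
  have hne : A'.Nonempty := by
    rw [nonempty_iff_ne_empty]
    rintro rfl
    rw [card_empty, Nat.cast_zero, mul_zero] at hle
    linarith
  have h1 : {x : Γ | ∃ a ∈ A, ∃ b ∈ A, x = a + b} = ((A + A : Finset Γ) : Set Γ) := by
    ext x
    simp only [Set.mem_ofPred_eq, mem_coe, Finset.mem_add]
    constructor
    · rintro ⟨a, ha, b, hb, rfl⟩
      exact ⟨a, ha, b, hb, rfl⟩
    · rintro ⟨a, ha, b, hb, rfl⟩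
      exact ⟨a, ha, b, hb, rfl⟩
  rw [h1, Set.ncard_coe_finset] at hsum
  have h2 : ((A + A').card : ℝ) ≤ κ * L * A'.card := by
    have h3 : ((A + A').card : ℝ) ≤ (A + A).card := by
      exact_mod_cast card_le_card (add_subset_add_left hA')
    have h4 : κ * A.card ≤ κ * (L * A'.card) := mul_le_mul_of_nonneg_left hle (by linarith)
    linarith
  obtain ⟨T, hTA, hT, hcov⟩ := ruzsa_covering_add (K := κ * L) hne h2
  refine ⟨T, hTA, hT, fun a ha => ?_⟩
  obtain ⟨t, ht, w, hw, rfl⟩ := Finset.mem_add.1 (hcov ha)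
  obtain ⟨x, hx, y, hy, rfl⟩ := Finset.mem_sub.1 hw
  refine ⟨t, ht, ?_⟩
  rw [add_sub_cancel_left]
  exact hU x hx y hy

end Pool.Agent.U234.LD
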