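import Pool.Agent.U234.LD.Apply

/-! Groups with bounded torsion. -/

set_option autoImplicit false

open Finset Real
open scoped Pointwise

namespace Pool.Agent.U234.LD

/-- pigeonhole: a large part in one coset -/
theorem one_coset {Γ : Type*} [AddCommGroup Γ] (A T : Finset Γ) (hA : A.Nonempty)
    (H : AddSubgroup Γ) (hcov : ∀ a ∈ A, ∃ t ∈ T, a - t ∈ H) :
    ∃ A' ⊆ A, (A.card : ℝ) ≤ T.card * A'.card ∧ ∀ x ∈ A', ∀ y ∈ A', x - y ∈ H := by
  classical
  choose! f hf1 hf2 using hcov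
  have hT : T.Nonempty := by
    obtain ⟨a, ha⟩ := hA
    exact ⟨f a, hf1 a ha⟩
  have hTp : (0 : ℝ) < T.card := by exact_mod_cast card_pos.2 hT
  obtain ⟨y, hy, hle⟩ := Finset.exists_le_card_fiber_of_nsmul_le_card_of_maps_to (s := A) (t := T)
    (f := f) (b := (A.card : ℝ) / T.card) hf1 hT (by
      rw [nsmul_eq_mul, mul_div_cancel₀ _ hTp.ne'])
  refine ⟨A.filter (fun x => f x = y), filter_subset _ _, ?_, ?_⟩
  · rw [div_le_iff₀ hTp] at hle
    linarith
  · intro x hx z hz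
    rw [mem_filter] at hx hz
    have h1 := hf2 x hx.1
    have h2 := hf2 z hz.1
    rw [hx.2] at h1
    rw [hz.2] at h2
    have := H.sub_mem h1 h2
    rwa [sub_sub_sub_cancel_right] at this

/-- the theorem on groups of bounded exponent for sets in a coset of a finite subgroup -/
theorem upper_coset {Γ : Type*} [AddCommGroup Γ] [DecidableEq Γ] (m : ℕ) (hm : 0 < m)
    (U : AddSubgroup Γ) (htor : ∀ x ∈ U, m • x = 0) (K : ℝ) (A : Finset Γ) (hA : A.Nonempty)
    (hU : ∀ x ∈ A, ∀ y ∈ A, x - y ∈ U)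
    (hK : ((A + A).card : ℝ) ≤ K * (A.card : ℝ)) :
    ∃ (H : AddSubgroup Γ) (T : Finset Γ), Finite H ∧ Nat.card H ≤ A.card ∧
      (T.card : ℝ) ≤ (2 * K) ^ (41005 * (Nat.log 2 m + 1)) ∧ ∀ a ∈ A, ∃ t ∈ T, a - t ∈ H := by
  classical
  obtain ⟨a₀, ha₀⟩ := id hA
  have hinj : Function.Injective (fun v : U => (v : Γ) + a₀) := fun v w h =>
    Subtype.ext (add_right_cancel h)
  set A₁ : Finset U := A.preimage (fun v : U => (v : Γ) + a₀) hinj.injOn with hA₁
  have hmap : A₁.image (fun v : U => (v : Γ) + a₀) = A := by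
    ext a
    simp only [hA₁, Finset.mem_image, Finset.mem_preimage]
    constructor
    · rintro ⟨v, hv, rfl⟩
      exact hv
    · intro ha
      exact ⟨⟨a - a₀, hU a ha a₀ ha₀⟩, by simpa using ha, by simp⟩
  have hcard : A₁.card = A.card := by rw [← hmap, Finset.card_image_of_injective _ hinj]
  have hne : A₁.Nonempty := by rw [← card_pos, hcard]; exact card_pos.2 hA
  have hcard2 : (A₁ + A₁).card ≤ (A + A).card := by
    refine Finset.card_le_card_of_injOn (fun v : U => (v : Γ) + (a₀ + a₀)) ?_ ?_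
    · intro v hv
      rw [mem_coe, Finset.mem_add] at hv ⊢
      obtain ⟨x, hx, y, hy, rfl⟩ := hv
      rw [hA₁, Finset.mem_preimage] at hx hy
      exact ⟨_, hx, _, hy, by push_cast; abel⟩
    · intro v _ w _ h
      exact Subtype.ext (add_right_cancel h)
  obtain ⟨H, T, hH, hHc, hT, hcov⟩ := Pool.Agent.TH404.Tor.upper (Γ := U) m hm
    (fun x => Subtype.ext (by simpa using htor x.1 x.2)) K A₁ hne (by
      rw [hcard]
      refine le_trans ?_ hK
      exact_mod_cast hcard2)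
  have hHe := H.equivMapOfInjective U.subtype Subtype.val_injective
  refine ⟨H.map U.subtype, T.image (fun v : U => (v : Γ) + a₀), Finite.of_equiv H hHe.toEquiv, ?_,
    ?_, ?_⟩
  · rw [← hcard]
    refine le_trans (le_of_eq ?_) hHc
    exact (Nat.card_congr hHe.toEquiv).symm
  · refine le_trans ?_ hT
    exact_mod_cast card_image_le
  · intro a ha
    obtain ⟨t, ht, hat⟩ := hcov ⟨a - a₀, hU a ha a₀ ha₀⟩ (by
      rw [hA₁, Finset.mem_preimage]
      simpa using ha)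
    refine ⟨_, mem_image_of_mem _ ht, ⟨_, hat, ?_⟩⟩
    simp only [AddSubgroup.coe_subtype, AddSubgroup.coe_sub]
    abel

/-- **Groups with bounded torsion.** -/
theorem tor_cov {Γ : Type*} [AddCommGroup Γ] [DecidableEq Γ] (m : ℕ) (hm : 0 < m)
    (htor : ∀ (x : Γ) (n : ℤ), n ≠ 0 → n • x = 0 → m • x = 0) (q : ℕ) (hq : 2 ≤ q)
    (A : Finset Γ) (hA : A.Nonempty) (K : ℝ) (hK : ((A + A).card : ℝ) ≤ K * A.card)
    (S : Finset ℕ) (hS : CS 1 * (1 + log K) ≤ S.card)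
    (hsum : ∀ s ∈ S, ∃ u : ℤ, IsCoprime u (q : ℤ) ∧
      ((A + A.image fun x => ((q : ℤ) ^ s * u) • x).card : ℝ) ≤ K * A.card) :
    ∃ (H : AddSubgroup Γ) (T : Finset Γ), Finite H ∧ Nat.card H ≤ A.card ∧
      (T.card : ℝ) ≤ (2 * K) ^ (123018 * (Nat.log 2 m + 1)) ∧ ∀ a ∈ A, ∃ t ∈ T, a - t ∈ H := by
  have hK1 := one_le_K hA hK
  obtain ⟨A₁, h1, h2, h3⟩ := int_small q hq A hA K hK1 1 one_pos le_rfl S hS hsum
  obtain ⟨U, hU, hUt, hdiff⟩ := finite_of_torsion A₁ h3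
  have hne : A₁.Nonempty := by
    rw [nonempty_iff_ne_empty]
    rintro rfl
    rw [card_empty, Nat.cast_zero, mul_zero] at h2
    have : (0 : ℝ) < A.card := by exact_mod_cast hA.card_pos
    linarith
  have e2 : K ^ ((1 : ℝ) + 1) = K ^ 2 := by
    rw [← rpow_natCast]; norm_num
  rw [e2] at h2
  have hK₁ : ((A₁ + A₁).card : ℝ) ≤ K ^ 3 * A₁.card := by
    have h4 : ((A₁ + A₁).card : ℝ) ≤ (A + A).card := by
      exact_mod_cast card_le_card (add_subset_add h1 h1)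
    calc ((A₁ + A₁).card : ℝ) ≤ K * A.card := h4.trans hK
      _ ≤ K * (K ^ 2 * A₁.card) := mul_le_mul_of_nonneg_left h2 (by linarith)
      _ = _ := by ring
  obtain ⟨H, T₁, hH, hHc, hT₁, hcov⟩ := upper_coset m hm U (fun x hx => by
    obtain ⟨n, hn, hx⟩ := hUt x hx
    exact htor x n hn hx) (K ^ 3) A₁ hne hdiff hK₁
  obtain ⟨A₂, h5, h6, h7⟩ := one_coset A₁ T₁ hne H hcov
  set l := Nat.log 2 m + 1 with hl
  have hle : (A.card : ℝ) ≤ (K ^ 2 * (2 * K ^ 3) ^ (41005 * l)) * A₂.card := by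
    calc (A.card : ℝ) ≤ K ^ 2 * A₁.card := h2
      _ ≤ K ^ 2 * (T₁.card * A₂.card) := mul_le_mul_of_nonneg_left h6 (by positivity)
      _ ≤ K ^ 2 * ((2 * K ^ 3) ^ (41005 * l) * A₂.card) := by gcongr
      _ = _ := by ring
  obtain ⟨T, hTA, hT, hc⟩ := covering A A₂ hA (h5.trans h1) K _ hK1 (by
    rw [ncard_self]; exact hK) hle (H : Set Γ) h7
  refine ⟨H, T, hH, hHc.trans (card_le_card h1), hT.trans ?_, hc⟩
  have hl1 : 1 ≤ l := by omega
  calc K * (K ^ 2 * (2 * K ^ 3) ^ (41005 * l)) = K ^ 3 * (2 * K ^ 3) ^ (41005 * l) := by ring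
    _ ≤ (2 * K) ^ 3 * ((2 * K) ^ 3) ^ (41005 * l) := by
        have h8 : K ^ 3 ≤ (2 * K) ^ 3 := pow_le_pow_left₀ (by linarith) (by linarith) 3
        have h9 : 2 * K ^ 3 ≤ (2 * K) ^ 3 := by
          have : (2 * K) ^ 3 = 8 * K ^ 3 := by ring
          rw [this]
          nlinarith [pow_pos (show (0 : ℝ) < K by linarith) 3]
        gcongr
    _ = (2 * K) ^ (3 + 3 * (41005 * l)) := by rw [← pow_mul, ← pow_add]
    _ ≤ _ := pow_le_pow_right₀ (by linarith) (by omega)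

end Pool.Agent.U234.LD
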