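import Pool.Agent.U234.LD.Core

/-! Consequences of the main inequality: the number of exceptional maps, and sets with small
sums. -/

set_option autoImplicit false

open Finset Real

namespace Pool.Agent.U234.LD

variable {Γ : Type*} [AddCommGroup Γ]

theorem mono_level (F : ℕ → AddSubgroup Γ) (hanti : Antitone F) (D : Finset Γ) {s t : ℕ}
    (hst : s ≤ t) : K D (pi (F s)) ≤ K D (pi (F t)) := by
  have h := sum_fibre F D (t := s) (pi (F t)) (fun x _ y _ h => by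
    rw [pi_eq] at h ⊢; exact hanti hst h)
  have h2 : 0 ≤ ∑ c ∈ cls (F s) D, K (fib (F s) D c) (pi (F t)) :=
    sum_nonneg fun _ _ => K_nonneg _ _
  linarith

/-- a level at which all the pairs which are separated by the filtration are separated -/
theorem exists_level (F : ℕ → AddSubgroup Γ) (hanti : Antitone F) (D : Finset Γ) :
    ∃ T₀ : ℕ, ∀ x ∈ D, ∀ y ∈ D, x - y ∈ F T₀ → ∀ t, x - y ∈ F t := by
  have h1 : ∀ w : Γ × Γ, ∃ t : ℕ, w.1 - w.2 ∈ F t → ∀ t, w.1 - w.2 ∈ F t := by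
    intro w
    by_contra hno
    push Not at hno
    obtain ⟨t, ht⟩ := (hno 0).2
    exact ht (hno t).1
  choose τ hτ using h1
  refine ⟨(D ×ˢ D).sup τ, fun x hx y hy h => hτ (x, y) ?_⟩
  exact hanti (le_sup (f := τ) (mem_product.2 ⟨hx, hy⟩ : (x, y) ∈ D ×ˢ D)) h

theorem stable_level (F : ℕ → AddSubgroup Γ) (hanti : Antitone F) (D D' : Finset Γ) (T₀ : ℕ)
    (hT₀ : ∀ x ∈ D', ∀ y ∈ D', x - y ∈ F T₀ → ∀ t, x - y ∈ F t) (hD : D ⊆ D') {t : ℕ}
    (ht : T₀ ≤ t) : K D (pi (F t)) = K D (pi (F T₀)) := by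
  refine K_congr fun x hx y hy => ?_
  rw [pi_eq, pi_eq]
  exact ⟨fun h => hanti ht h, fun h => hT₀ y (hD hy) x (hD hx) h t⟩

omit [AddCommGroup Γ] in
theorem K_le_log (D : Finset Γ) {G : Type*} (f : Γ → G) : K D f ≤ D.card * log D.card := by
  unfold K
  have : 0 ≤ ∑ x ∈ D, log (N D f x) := sum_nonneg fun x hx => by
    have : 1 ≤ N D f x := N_pos hx
    exact log_nonneg (by exact_mod_cast this)
  linarith

theorem ncard_ge (A B : Finset Γ) (hA : A.Nonempty) (ψ : Γ →+ Γ)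
    (hinj : Function.Injective ψ) :
    B.card ≤ Set.ncard {x : Γ | ∃ a ∈ A, ∃ b ∈ B, x = a + ψ b} := by
  classical
  obtain ⟨a, ha⟩ := hA
  have h7 : {x : Γ | ∃ a ∈ A, ∃ b ∈ B, x = a + ψ b} =
      ((A ×ˢ B).image (fun z : Γ × Γ => z.1 + ψ z.2) : Finset Γ) := by
    ext x
    simp only [Set.mem_ofPred_eq, coe_image, Set.mem_image, mem_coe, mem_product, Prod.exists]
    constructor
    · rintro ⟨a, ha, b, hb, rfl⟩
      exact ⟨a, b, ⟨ha, hb⟩, rfl⟩
    · rintro ⟨a, b, ⟨ha, hb⟩, rfl⟩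
      exact ⟨a, ha, b, hb, rfl⟩
  rw [h7, Set.ncard_coe_finset]
  have h8 : B.image (fun b => a + ψ b) ⊆ (A ×ˢ B).image (fun z : Γ × Γ => z.1 + ψ z.2) := by
    intro x hx
    obtain ⟨b, hb, rfl⟩ := mem_image.1 hx
    exact mem_image.2 ⟨(a, b), mem_product.2 ⟨ha, hb⟩, rfl⟩
  refine le_trans (le_of_eq ?_) (card_le_card h8)
  rw [card_image_of_injective _ fun x y h => hinj (add_left_cancel h)]

/-- the constant -/
noncomputable def CE (δ : ℝ) : ℝ := 2 + 8 / δ ^ 2 * exp (2 / δ)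

/-- **The exceptional exponents.** -/
theorem exceptional (F : ℕ → AddSubgroup Γ) (h0 : F 0 = ⊤) (hanti : Antitone F)
    (hF : ∀ x, (∀ t, x ∈ F t) → x = 0) (A B : Finset Γ) (hA : A.Nonempty) (hB : B.Nonempty)
    (δ : ℝ) (hδ : 0 < δ) (hδ1 : δ ≤ 1) :
    {r : ℕ | ∃ ψ : Γ →+ Γ, (∀ s z, ψ z ∈ F s ↔ z ∈ F (s - r)) ∧
      (Set.ncard {x : Γ | ∃ a ∈ A, ∃ b ∈ B, x = a + ψ b} : ℝ) <
        ((A.card : ℝ) * B.card) ^ (1 - δ)}.Finite ∧
    (Set.ncard {r : ℕ | ∃ ψ : Γ →+ Γ, (∀ s z, ψ z ∈ F s ↔ z ∈ F (s - r)) ∧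
      (Set.ncard {x : Γ | ∃ a ∈ A, ∃ b ∈ B, x = a + ψ b} : ℝ) <
        ((A.card : ℝ) * B.card) ^ (1 - δ)} : ℝ) ≤ CE δ * log A.card := by
  classical
  set E : Set ℕ := {r : ℕ | ∃ ψ : Γ →+ Γ, (∀ s z, ψ z ∈ F s ↔ z ∈ F (s - r)) ∧
      (Set.ncard {x : Γ | ∃ a ∈ A, ∃ b ∈ B, x = a + ψ b} : ℝ) <
        ((A.card : ℝ) * B.card) ^ (1 - δ)} with hE
  have np : (0 : ℝ) < A.card := by exact_mod_cast card_pos.2 hA
  have mp : (0 : ℝ) < B.card := by exact_mod_cast card_pos.2 hB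
  have n1 : (1 : ℝ) ≤ A.card := by exact_mod_cast card_pos.2 hA
  have m1 : (1 : ℝ) ≤ B.card := by exact_mod_cast card_pos.2 hB
  have a0 : 0 ≤ log (A.card : ℝ) := log_nonneg n1
  have b0 : 0 ≤ log (B.card : ℝ) := log_nonneg m1
  have C1p : 0 ≤ 8 / δ ^ 2 * exp (2 / δ) := by positivity
  have key : ∀ S : Finset ℕ, (S : Set ℕ) ⊆ E → (S.card : ℝ) ≤ CE δ * log A.card := by
    intro S hSE
    rcases S.eq_empty_or_nonempty with rfl | hS
    · rw [card_empty, Nat.cast_zero]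
      exact mul_nonneg (by unfold CE; positivity) a0
    -- one point
    by_cases hA1 : A.card = 1
    · exfalso
      obtain ⟨r, hr⟩ := hS
      obtain ⟨ψ, hψ, hlt⟩ := hSE hr
      have hinj : Function.Injective ψ := by
        rw [injective_iff_map_eq_zero]
        intro z hz
        refine hF z fun t => ?_
        have h1 := (hψ (t + r) z).1 (by rw [hz]; exact (F (t + r)).zero_mem)
        rwa [Nat.add_sub_cancel] at h1
      have h1 : (B.card : ℝ) ≤ (Set.ncard {x : Γ | ∃ a ∈ A, ∃ b ∈ B, x = a + ψ b} : ℝ) := by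
        exact_mod_cast ncard_ge A B hA ψ hinj
      rw [hA1, Nat.cast_one, one_mul] at hlt
      have h2 : (B.card : ℝ) ^ (1 - δ) ≤ (B.card : ℝ) ^ (1 : ℝ) :=
        rpow_le_rpow_of_exponent_le m1 (by linarith)
      rw [rpow_one] at h2
      linarith
    have hA2 : 2 ≤ A.card := by
      have := card_pos.2 hA
      omega
    have hlog2 : 1 / 2 ≤ log (A.card : ℝ) := by
      have h1 : log 2 ≤ log (A.card : ℝ) := log_le_log (by norm_num) (by exact_mod_cast hA2)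
      have h2 := log_two_gt_d9
      linarith
    have hc : ∀ r : ℕ, ∃ ψ : Γ →+ Γ, r ∈ S → ((∀ s z, ψ z ∈ F s ↔ z ∈ F (s - r)) ∧
      (Set.ncard {x : Γ | ∃ a ∈ A, ∃ b ∈ B, x = a + ψ b} : ℝ) <
        ((A.card : ℝ) * B.card) ^ (1 - δ)) := by
      intro r
      by_cases hr : r ∈ S
      · obtain ⟨ψ, h⟩ := hSE hr
        exact ⟨ψ, fun _ => h⟩
      · exact ⟨0, fun h => absurd h hr⟩
    choose ψ hψ using hc
    obtain ⟨T₀, hT₀⟩ := exists_level F hanti (A ∪ B)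
    have sep : ∀ D : Finset Γ, D ⊆ A ∪ B → ∀ t, T₀ ≤ t →
        K D (pi (F t)) = D.card * log D.card := by
      intro D hD t ht
      refine K_inj D _ fun x hx y hy h => ?_
      rw [pi_eq] at h
      exact sub_eq_zero.1 (hF _ (hT₀ y (hD hy) x (hD hx) (hanti ht h)))
    have hcore := core_abs F h0 hanti T₀ S hS ψ (fun r hr => (hψ r hr).1) A B hA hB
      (log A.card) (log B.card) ((1 - δ) * (log A.card + log B.card))
      (sep A subset_union_left) (sep B subset_union_right) (by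
        intro r hr T
        have h1 := rel_upper F (ψ r) r (hψ r hr).1 A B hA hB T _ (hψ r hr).2.le
        rw [log_rpow (by positivity), log_mul np.ne' mp.ne'] at h1
        have h2 := K_le_log A (pi (F T))
        have h3 : 0 ≤ B.card * (A.card * log A.card - K A (pi (F T))) :=
          mul_nonneg mp.le (by linarith)
        linarith) (δ / 2) (by linarith) (by linarith)
    have e1 : 2 / (δ / 2) * exp (1 / (δ / 2)) = δ / 2 * (8 / δ ^ 2 * exp (2 / δ)) := by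
      have : 1 / (δ / 2) = 2 / δ := by field_simp
      rw [this]
      field_simp
      ring
    rw [e1] at hcore
    set a := log (A.card : ℝ)
    set b := log (B.card : ℝ)
    set C1 := 8 / δ ^ 2 * exp (2 / δ)
    have h2 : ((S.card : ℝ) - 1) * (δ / 2 * (a + b)) ≤ δ / 2 * C1 * (a * (a + b)) := by
      have h3 : δ / 2 * C1 * (a * (2 * ((1 - δ) * (a + b)) - a - b)) ≤
          δ / 2 * C1 * (a * (a + b)) := by
        refine mul_le_mul_of_nonneg_left (mul_le_mul_of_nonneg_left ?_ a0) (by positivity)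
        nlinarith
      have h4 : ((S.card : ℝ) - 1) * ((1 - δ / 2) * (a + b) - (1 - δ) * (a + b)) =
        ((S.card : ℝ) - 1) * (δ / 2 * (a + b)) := by ring
      linarith
    have h5 : 0 < δ / 2 * (a + b) := by
      have : 0 < a + b := by linarith
      positivity
    have h6 : (S.card : ℝ) - 1 ≤ C1 * a := by
      refine le_of_mul_le_mul_right ?_ h5
      calc ((S.card : ℝ) - 1) * (δ / 2 * (a + b)) ≤ δ / 2 * C1 * (a * (a + b)) := h2
        _ = C1 * a * (δ / 2 * (a + b)) := by ring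
    unfold CE
    have h7 : (2 + C1) * a = 2 * a + C1 * a := by ring
    change (S.card : ℝ) ≤ (2 + C1) * a
    rw [h7]
    linarith
  have hfin : E.Finite := by
    by_contra hinf
    obtain ⟨S, hS, hcard⟩ := Set.Infinite.exists_subset_card_eq hinf
      (⌈CE δ * log A.card⌉₊ + 1)
    have h1 := key S hS
    rw [hcard] at h1
    push_cast at h1
    have h2 := Nat.le_ceil (CE δ * log (A.card : ℝ))
    linarith
  refine ⟨hfin, ?_⟩
  rw [Set.ncard_eq_toFinset_card _ hfin]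
  exact key _ (by rw [Set.Finite.coe_toFinset])

/-- the constant -/
noncomputable def CS (δ : ℝ) : ℝ := 2 + 144 / δ ^ 2 * exp (6 / δ)

/-- **Sets with small sums.** -/
theorem small (F : ℕ → AddSubgroup Γ) (h0 : F 0 = ⊤) (hanti : Antitone F)
    (A : Finset Γ) (hA : A.Nonempty) (κ : ℝ) (hκ : 1 ≤ κ)
    (δ : ℝ) (hδ : 0 < δ) (hδ1 : δ ≤ 1) (S : Finset ℕ) (hS : CS δ * (1 + log κ) ≤ S.card)
    (hsum : ∀ r ∈ S, ∃ ψ : Γ →+ Γ, (∀ s z, ψ z ∈ F s ↔ z ∈ F (s - r)) ∧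
      (Set.ncard {x : Γ | ∃ a ∈ A, ∃ b ∈ A, x = a + ψ b} : ℝ) ≤ κ * A.card) :
    ∃ A' ⊆ A, (A.card : ℝ) ≤ κ ^ (1 + δ) * A'.card ∧ ∀ x ∈ A', ∀ y ∈ A', ∀ t, x - y ∈ F t := by
  classical
  have np : (0 : ℝ) < A.card := by exact_mod_cast card_pos.2 hA
  have k0 : 0 ≤ log κ := log_nonneg hκ
  have κp : 0 < κ := by linarith
  have C1p : 0 ≤ 144 / δ ^ 2 * exp (6 / δ) := by positivity
  have hS2 : 2 + 144 / δ ^ 2 * exp (6 / δ) * log κ ≤ S.card := by
    refine le_trans ?_ hS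
    unfold CS
    nlinarith
  have hSne : S.Nonempty := by
    rw [← card_pos, ← Nat.cast_pos (α := ℝ)]
    have := mul_nonneg C1p k0
    linarith
  have hc : ∀ r : ℕ, ∃ ψ : Γ →+ Γ, r ∈ S → ((∀ s z, ψ z ∈ F s ↔ z ∈ F (s - r)) ∧
      (Set.ncard {x : Γ | ∃ a ∈ A, ∃ b ∈ A, x = a + ψ b} : ℝ) ≤ κ * A.card) := by
    intro r
    by_cases hr : r ∈ S
    · obtain ⟨ψ, h⟩ := hsum r hr
      exact ⟨ψ, fun _ => h⟩
    · exact ⟨0, fun h => absurd h hr⟩
  choose ψ hψ using hc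
  obtain ⟨T₀, hT₀⟩ := exists_level F hanti A
  obtain ⟨Ea, hEa⟩ : ∃ Ea, Ea = K A (pi (F T₀)) / A.card := ⟨_, rfl⟩
  have hEa' : K A (pi (F T₀)) = A.card * Ea := by
    rw [hEa, mul_div_cancel₀ _ np.ne']
  have Ea0 : 0 ≤ Ea := by
    rw [hEa]; exact div_nonneg (K_nonneg _ _) np.le
  have sep : ∀ t, T₀ ≤ t → K A (pi (F t)) = A.card * Ea := by
    intro t ht
    rw [stable_level F hanti A A T₀ hT₀ Subset.rfl ht, hEa']
  have hcore := core_abs F h0 hanti T₀ S hSne ψ (fun r hr => (hψ r hr).1) A A hA hA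
    Ea Ea (Ea + log κ) sep sep (by
      intro r hr T
      have h1 := rel_upper F (ψ r) r (hψ r hr).1 A A hA hA T _ (hψ r hr).2
      rw [log_mul κp.ne' np.ne'] at h1
      have h2 : K A (pi (F T)) ≤ A.card * Ea := by
        rcases le_total T T₀ with h | h
        · exact (mono_level F hanti A h).trans (le_of_eq hEa')
        · exact (sep T h).le
      nlinarith) (δ / 6) (by linarith) (by linarith)
  have e1 : 2 / (δ / 6) * exp (1 / (δ / 6)) = δ / 12 * (144 / δ ^ 2 * exp (6 / δ)) := by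
    have h1 : 1 / (δ / 6) = 6 / δ := one_div_div δ 6
    have h2 : 2 / (δ / 6) = 12 / δ := by rw [div_div_eq_mul_div]; norm_num
    have h3 : δ / 12 * (144 / δ ^ 2) = 12 / δ := by
      rw [div_mul_div_comm, div_eq_div_iff (by positivity) hδ.ne']
      ring
    rw [h1, h2, ← mul_assoc, h3]
  rw [e1] at hcore
  set C1 := 144 / δ ^ 2 * exp (6 / δ)
  set k := log κ
  have hEle : Ea ≤ (1 + δ) * k := by
    -- `n ((1 - δ/3) Ea - k) ≤ (δ/6) C1 k Ea ≤ (δ/6) n Ea`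
    have h1 : ((S.card : ℝ) - 1) * ((1 - δ / 3) * Ea - k) ≤ δ / 6 * (C1 * k) * Ea := by
      have e2 : (1 - δ / 6) * (Ea + Ea) - (Ea + k) = (1 - δ / 3) * Ea - k := by ring
      rw [e2] at hcore
      refine hcore.trans (le_of_eq ?_)
      ring
    have h2 : C1 * k ≤ (S.card : ℝ) - 1 := by linarith
    have h3 : δ / 6 * (C1 * k) * Ea ≤ ((S.card : ℝ) - 1) * (δ / 6 * Ea) := by
      have : 0 ≤ δ / 6 * Ea := by positivity
      nlinarith
    have h4 : 0 < (S.card : ℝ) - 1 := by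
      have := mul_nonneg C1p k0
      linarith
    have h5 : (1 - δ / 3) * Ea - k ≤ δ / 6 * Ea := le_of_mul_le_mul_left (h1.trans h3) h4
    have h6 : (1 - δ / 2) * Ea ≤ k := by linarith
    have h7 : 1 ≤ (1 + δ) * (1 - δ / 2) := by nlinarith
    have h8 : Ea ≤ (1 + δ) * ((1 - δ / 2) * Ea) := by
      have := mul_le_mul_of_nonneg_right h7 Ea0
      linarith
    exact h8.trans (mul_le_mul_of_nonneg_left h6 (by linarith))
  -- a large class
  obtain ⟨x, hx, hle⟩ : ∃ x ∈ A, log ((A.card : ℝ) / N A (pi (F T₀)) x) ≤ Ea := by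
    by_contra hno
    push Not at hno
    have h1 : ∑ x ∈ A, Ea < ∑ x ∈ A, log ((A.card : ℝ) / N A (pi (F T₀)) x) :=
      sum_lt_sum_of_nonempty hA hno
    rw [sum_const, nsmul_eq_mul, ← K_eq, hEa'] at h1
    exact lt_irrefl _ h1
  have hNp : (0 : ℝ) < N A (pi (F T₀)) x := by exact_mod_cast N_pos hx
  refine ⟨fib (F T₀) A (pi (F T₀) x), filter_subset _ _, ?_, ?_⟩
  · have h1 : (A.card : ℝ) / N A (pi (F T₀)) x ≤ exp Ea := by
      exact (log_le_iff_le_exp (div_pos np hNp)).1 hle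
    have h2 : exp Ea ≤ κ ^ (1 + δ) := by
      rw [rpow_def_of_pos κp, mul_comm]
      exact exp_le_exp.2 hEle
    have h3 : (N A (pi (F T₀)) x : ℝ) = (fib (F T₀) A (pi (F T₀) x)).card := by
      unfold N fib
      congr!
    rw [← h3]
    rw [div_le_iff₀ hNp] at h1
    exact h1.trans (mul_le_mul_of_nonneg_right h2 hNp.le)
  · intro y hy z hz
    obtain ⟨hy1, hy2⟩ := mem_fib.1 hy
    obtain ⟨hz1, hz2⟩ := mem_fib.1 hz
    refine hT₀ y hy1 z hz1 ?_
    rw [← pi_eq, hy2, hz2]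

end Pool.Agent.U234.LD
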