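import Pool.Agent.U234.LD.Apply

/-! Discrete valuations. -/

set_option autoImplicit false

open Finset Real
open scoped Pointwise

namespace Pool.Agent.U234.LD

theorem sum_inv {F V : Type*} [Field F] [AddCommGroup V] [Module F V] [DecidableEq V] (A B : Finset V)
    (c : F) (hc : c ≠ 0) : (A + B.image fun x => c • x).card = (B + A.image fun x => c⁻¹ • x).card := by
  have hinj : Function.Injective (fun x : V => c⁻¹ • x) := smul_right_injective V (inv_ne_zero hc)
  rw [← Finset.card_image_of_injective _ hinj]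
  congr 1
  ext x
  simp only [Finset.mem_add, mem_image]
  constructor
  · rintro ⟨_, ⟨a, ha, _, ⟨b, hb, rfl⟩, rfl⟩, rfl⟩
    exact ⟨b, hb, _, ⟨a, ha, rfl⟩, by
      rw [smul_add, smul_smul, inv_mul_cancel₀ hc, one_smul, add_comm]⟩
  · rintro ⟨b, hb, _, ⟨a, ha, rfl⟩, rfl⟩
    exact ⟨_, ⟨a, ha, _, ⟨b, hb, rfl⟩, rfl⟩, by
      rw [smul_add, smul_smul, inv_mul_cancel₀ hc, one_smul, add_comm]⟩

variable {F : Type*} [Field F] {Γ₀ : Type*} [LinearOrderedCommGroupWithZero Γ₀]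

/-- a discrete valuation has a uniformizer -/
theorem exists_unif (v : Valuation F Γ₀) [v.IsRankOneDiscrete] :
    IsNoetherianRing v.valuationSubring ∧
    ∃ p : v.valuationSubring, (p : F) ≠ 0 ∧ 
      (∀ c : v.valuationSubring, 1 - p * c ≠ 0) ∧
      ∀ x : F, x ≠ 0 → v x ≤ 1 → ∃ (n : ℕ) (u : v.valuationSubring), IsUnit u ∧
        x = (p : F) ^ n * u ∧ v x = v (p : F) ^ n := by
  refine ⟨inferInstance, ?_⟩
  obtain ⟨w⟩ : Nonempty (Valuation.Uniformizer v) := inferInstance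
  obtain ⟨p, hp⟩ : ∃ p : v.valuationSubring, p = w.val := ⟨_, rfl⟩
  refine ⟨p, by rw [hp]; exact w.ne_zero, ?_, ?_⟩
  · intro c hc
    have h1 : p * c = 1 := (sub_eq_zero.1 hc).symm
    have h2 : IsUnit p := IsUnit.of_mul_eq_one c h1
    rw [hp] at h2
    exact w.2.not_isUnit h2
  · intro x hx hx1
    obtain ⟨n, u, hu⟩ := Valuation.exists_pow_Uniformizer (v := v)
      (r := (⟨x, hx1⟩ : v.valuationSubring)) (fun h => hx (congrArg Subtype.val h)) w
    have h1 : x = (p : F) ^ n * ((u : v.valuationSubring) : F) := by rw [hp]; exact hu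
    refine ⟨n, (u : v.valuationSubring), u.isUnit, h1, ?_⟩
    have h2 : v ((u : v.valuationSubring) : F) = 1 :=
      (Valuation.Integers.isUnit_iff_valuation_eq_one (Valuation.integer.integers v)).mp u.isUnit
    rw [h1, map_mul, map_pow, h2, mul_one]

/-- **The exceptional dilates have few valuations.** -/
theorem exceptional_val (v : Valuation F Γ₀) [v.IsRankOneDiscrete] {V : Type*} [AddCommGroup V]
    [Module F V] [DecidableEq V] (A B : Finset V) (hA : A.Nonempty) (hB : B.Nonempty)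
    (δ : ℝ) (hδ : 0 < δ) (hδ1 : δ ≤ 1) :
    {g : Γ₀ | ∃ c : F, c ≠ 0 ∧ v c = g ∧ ((A + B.image fun x => c • x).card : ℝ) <
        ((A.card : ℝ) * B.card) ^ (1 - δ)}.Finite ∧
    (Set.ncard {g : Γ₀ | ∃ c : F, c ≠ 0 ∧ v c = g ∧ ((A + B.image fun x => c • x).card : ℝ) <
        ((A.card : ℝ) * B.card) ^ (1 - δ)} : ℝ) ≤ CE δ * log (A.card * B.card) := by
  obtain ⟨hN, p, hp0, hp1, hp2⟩ := exists_unif v
  let _ : Module v.valuationSubring V := Module.compHom V v.valuationSubring.subtype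
  have hsm : ∀ (c : v.valuationSubring) (x : V), c • x = (c : F) • x := fun _ _ => rfl
  have hl : ∀ (x : V) (i : ℕ) (c : v.valuationSubring), (p ^ i * (1 - p * c)) • x = 0 → x = 0 := by
    intro x i c h
    rw [hsm] at h
    refine (smul_eq_zero.1 h).resolve_left ?_
    have : (p ^ i * (1 - p * c) : v.valuationSubring) ≠ 0 :=
      mul_ne_zero (pow_ne_zero _ fun h => hp0 (congrArg Subtype.val h)) (hp1 c)
    exact fun h => this (Subtype.ext h)
  have h1 := exceptional_mod (R := v.valuationSubring) (M := V) p hl A B hA hB δ hδ hδ1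
  have h2 := exceptional_mod (R := v.valuationSubring) (M := V) p hl B A hB hA δ hδ hδ1
  set E₁ := {r : ℕ | ∃ u : v.valuationSubring, IsCoprime u p ∧
      (Set.ncard {x : V | ∃ a ∈ A, ∃ b ∈ B, x = a + (p ^ r * u) • b} : ℝ) <
        ((A.card : ℝ) * B.card) ^ (1 - δ)} with hE₁
  set E₂ := {r : ℕ | ∃ u : v.valuationSubring, IsCoprime u p ∧
      (Set.ncard {x : V | ∃ a ∈ B, ∃ b ∈ A, x = a + (p ^ r * u) • b} : ℝ) <
        ((B.card : ℝ) * A.card) ^ (1 - δ)} with hE₂
  have hsub : {g : Γ₀ | ∃ c : F, c ≠ 0 ∧ v c = g ∧ ((A + B.image fun x => c • x).card : ℝ) <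
        ((A.card : ℝ) * B.card) ^ (1 - δ)} ⊆
      (fun n : ℕ => v (p : F) ^ n) '' E₁ ∪ (fun n : ℕ => (v (p : F) ^ n)⁻¹) '' E₂ := by
    rintro g ⟨c, hc, rfl, hlt⟩
    rcases le_total (v c) 1 with h | h
    · left
      obtain ⟨n, u, hu, hcn, hvc⟩ := hp2 c hc h
      obtain ⟨b, hb⟩ := hu.exists_left_inv
      refine ⟨n, ⟨u, ⟨b, 0, by rw [hb, zero_mul, add_zero]⟩, ?_⟩, hvc.symm⟩
      have e := ncard_image A B (fun x => c • x)
      rw [← e] at hlt
      have e2 : ((p ^ n * u : v.valuationSubring) : F) = c := by push_cast; exact hcn.symm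
      show (Set.ncard {x : V | ∃ a ∈ A, ∃ b ∈ B, x = a + ((p ^ n * u : v.valuationSubring) : F) • b}
        : ℝ) < _
      rw [e2]
      exact hlt
    · right
      have hc' : c⁻¹ ≠ 0 := inv_ne_zero hc
      have h' : v c⁻¹ ≤ 1 := by
        rw [map_inv₀]
        exact inv_le_one_of_one_le₀ h
      obtain ⟨n, u, hu, hcn, hvc⟩ := hp2 c⁻¹ hc' h'
      obtain ⟨b, hb⟩ := hu.exists_left_inv
      refine ⟨n, ⟨u, ⟨b, 0, by rw [hb, zero_mul, add_zero]⟩, ?_⟩, ?_⟩
      · rw [sum_inv A B c hc] at hlt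
        have e := ncard_image B A (fun x => c⁻¹ • x)
        rw [← e, mul_comm (A.card : ℝ)] at hlt
        have e2 : ((p ^ n * u : v.valuationSubring) : F) = c⁻¹ := by push_cast; exact hcn.symm
        show (Set.ncard {x : V | ∃ a ∈ B, ∃ b ∈ A,
          x = a + ((p ^ n * u : v.valuationSubring) : F) • b} : ℝ) < _
        rw [e2]
        exact hlt
      · show (v (p : F) ^ n)⁻¹ = v c
        rw [← hvc, map_inv₀, inv_inv]
  have hfin : ((fun n : ℕ => v (p : F) ^ n) '' E₁ ∪ (fun n : ℕ => (v (p : F) ^ n)⁻¹) '' E₂).Finite :=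
    (h1.1.image _).union (h2.1.image _)
  refine ⟨hfin.subset hsub, ?_⟩
  have hcard := (Set.ncard_le_ncard hsub hfin).trans ((Set.ncard_union_le _ _).trans
    (add_le_add (Set.ncard_image_le h1.1) (Set.ncard_image_le h2.1)))
  have hcard' : (Set.ncard {g : Γ₀ | ∃ c : F, c ≠ 0 ∧ v c = g ∧
      ((A + B.image fun x => c • x).card : ℝ) < ((A.card : ℝ) * B.card) ^ (1 - δ)} : ℝ) ≤
      E₁.ncard + E₂.ncard := by exact_mod_cast hcard
  have hAp : (A.card : ℝ) ≠ 0 := by exact_mod_cast hA.card_pos.ne'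
  have hBp : (B.card : ℝ) ≠ 0 := by exact_mod_cast hB.card_pos.ne'
  rw [log_mul hAp hBp]
  have h3 := h1.2
  have h4 := h2.2
  linarith

end Pool.Agent.U234.LD
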